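import Pool.Agent.Y779.RO.Slow

/-!
# Groups of translations and point reflections have polynomial growth
-/

set_option autoImplicit false
set_option linter.all false

namespace Pool.Agent.Y779.RO

open Pool.Agent.H382RO Finset Classical Topology Pointwise

variable {d : ℕ}

/-- the sign of a Boolean -/
def sg (ε : Bool) : ℤ := if ε then 1 else -1

/-- a translation or a point reflection -/
def IsPM (g : EE d ≃ᵢ EE d) : Prop := ∃ (ε : Bool) (v : EE d), ∀ x, g x = sg ε • x + v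

theorem sg_mul (a b : Bool) : ∃ c, sg c = sg a * sg b := by
  cases a <;> cases b
  · exact ⟨true, by simp [sg]⟩
  · exact ⟨false, by simp [sg]⟩
  · exact ⟨false, by simp [sg]⟩
  · exact ⟨true, by simp [sg]⟩

theorem sg_abs (a : Bool) : |sg a| = 1 := by cases a <;> simp [sg]

theorem poly_exp (k : ℕ) {c : ℝ} (hc : 1 < c) : ∃ N : ℕ, 2 * (2 * (N : ℝ) + 1) ^ k < c ^ N := by
  have h1 := tendsto_pow_const_div_const_pow_of_one_lt k hc
  have h2 := h1.const_mul (2 * 3 ^ k : ℝ)
  rw [mul_zero] at h2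
  have h3 := (h2.eventually (gt_mem_nhds (show (0 : ℝ) < 1 by norm_num))).and
    (Filter.eventually_ge_atTop 1)
  obtain ⟨N, hN, hN1⟩ := h3.exists
  refine ⟨N, ?_⟩
  have hcN : (0 : ℝ) < c ^ N := by positivity
  have hN1' : (1 : ℝ) ≤ N := by exact_mod_cast hN1
  have h4 : 2 * (2 * (N : ℝ) + 1) ^ k ≤ 2 * 3 ^ k * (N : ℝ) ^ k := by
    rw [mul_assoc, ← mul_pow]
    have : (2 * (N : ℝ) + 1) ^ k ≤ (3 * N) ^ k := pow_le_pow_left₀ (by positivity) (by linarith) k
    linarith
  have h5 : 2 * 3 ^ k * (N : ℝ) ^ k < c ^ N := by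
    have h6 : 2 * 3 ^ k * ((N : ℝ) ^ k / c ^ N) < 1 := hN
    rw [← mul_div_assoc, div_lt_one hcN] at h6
    exact h6
  linarith

theorem slow_pm {H : Subgroup (EE d ≃ᵢ EE d)} (hH : ∀ g ∈ H, IsPM g) : Slow H := by
  intro S hS c hc
  have hS' : ∀ s : S, ∃ (ε : Bool) (v : EE d), ∀ x, (s : EE d ≃ᵢ EE d) x = sg ε • x + v :=
    fun s => hH _ (hS s s.2)
  choose ε v hεv using hS'
  have key : ∀ N : ℕ, ∀ g ∈ S ^ N, ∃ (q : Bool × (S → ℤ)), (∀ s, q.2 s ∈ Finset.Icc (-(N:ℤ)) N) ∧
      ∀ x, g x = sg q.1 • x + ∑ s, q.2 s • v s := by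
    intro N
    induction N with
    | zero =>
      intro g hg
      rw [pow_zero, Finset.mem_one] at hg
      refine ⟨(true, fun _ => 0), by simp, fun x => ?_⟩
      rw [hg]
      simp [sg]
    | succ N ih =>
      intro g hg
      rw [pow_succ'] at hg
      obtain ⟨s, hs, g', hg', rfl⟩ := Finset.mem_mul.mp hg
      obtain ⟨q, hq1, hq2⟩ := ih g' hg'
      obtain ⟨δ, hδ⟩ := sg_mul (ε ⟨s, hs⟩) q.1
      refine ⟨(δ, fun t => sg (ε ⟨s, hs⟩) * q.2 t + if t = ⟨s, hs⟩ then 1 else 0), ?_, ?_⟩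
      · intro t
        have h1 := hq1 t
        rw [Finset.mem_Icc, ← abs_le] at h1 ⊢
        have h2 : |sg (ε ⟨s, hs⟩) * q.2 t| ≤ N := by rw [abs_mul, sg_abs, one_mul]; exact h1
        have h3 : |(if t = ⟨s, hs⟩ then (1 : ℤ) else 0)| ≤ 1 := by split <;> simp
        calc _ ≤ |sg (ε ⟨s, hs⟩) * q.2 t| + |(if t = ⟨s, hs⟩ then (1 : ℤ) else 0)| := abs_add_le _ _
          _ ≤ _ := by push_cast; linarith
      · intro x
        show s (g' x) = _
        rw [hq2 x, hεv ⟨s, hs⟩, hδ]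
        simp only [add_smul, Finset.sum_add_distrib, ite_smul, one_smul, zero_smul,
          Finset.sum_ite_eq', Finset.mem_univ, if_true, mul_smul, smul_add, Finset.smul_sum]
        rw [add_assoc]
  obtain ⟨N, hN⟩ := poly_exp S.card hc
  refine ⟨N, lt_of_le_of_lt ?_ hN⟩
  choose! Q hQ1 hQ2 using key N
  have hcard : (S ^ N).card ≤
      ((univ : Finset Bool) ×ˢ Fintype.piFinset (fun _ : S => Finset.Icc (-(N:ℤ)) N)).card := by
    apply Finset.card_le_card_of_injOn Q
    · intro g hg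
      exact Finset.mem_product.mpr ⟨Finset.mem_univ _, Fintype.mem_piFinset.mpr (hQ1 g hg)⟩
    · intro g hg g' hg' hgg
      ext1 x
      rw [hQ2 g hg, hQ2 g' hg', hgg]
  rw [Finset.card_product, Fintype.card_piFinset] at hcard
  simp only [Finset.card_univ, Fintype.card_bool, Int.card_Icc, Finset.prod_const,
    Fintype.card_coe] at hcard
  have h6 : ((N : ℤ) + 1 - -(N : ℤ)).toNat = 2 * N + 1 := by omega
  rw [h6] at hcard
  have : ((S ^ N).card : ℝ) ≤ ((2 * (2 * N + 1) ^ S.card : ℕ) : ℝ) := by exact_mod_cast hcard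
  push_cast at this
  exact this

/-- all isometries of the line are translations and point reflections -/
theorem pm_one (g : EE 1 ≃ᵢ EE 1) : IsPM g := by
  let L := g.toRealLinearIsometryEquiv
  have hL : ∀ x, g x = L x + g 0 := by
    intro x
    have : L x = g x - g 0 := IsometryEquiv.toRealLinearIsometryEquiv_apply g x
    rw [this, sub_add_cancel]
  let e : EE 1 := EuclideanSpace.single 0 1
  have hx : ∀ x : EE 1, x = (x 0) • e := by
    intro x
    ext i
    fin_cases i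
    simp [e]
  have hLe : L e = ((L e) 0) • e := hx _
  have hn : |(L e) 0| = 1 := by
    have h1 : ‖L e‖ = 1 := by rw [L.norm_map]; simp [e]
    rw [hLe, norm_smul, Real.norm_eq_abs] at h1
    have h2 : ‖e‖ = 1 := by simp [e]
    rw [h2, mul_one] at h1
    exact h1
  have hL2 : ∀ x, L x = ((L e) 0) • x := by
    intro x
    conv_lhs => rw [hx x, map_smul, hLe]
    rw [smul_comm, ← hx x]
  rcases (abs_eq (zero_le_one)).mp hn with h | h
  · refine ⟨true, g 0, fun x => ?_⟩
    rw [hL, hL2, h]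
    simp [sg]
  · refine ⟨false, g 0, fun x => ?_⟩
    rw [hL, hL2, h]
    simp [sg]

end Pool.Agent.Y779.RO
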