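import Mathlib

/-!
# Families in a group up to bijections with finitely many displacements

The families of elements of a group, up to bijections which move each member by an element of a
finite subset of a subgroup, form a commutative monoid.
-/

set_option autoImplicit false

namespace Pool.Agent.Y779.RO

/-- a family of elements of `G` -/
structure Ms (G : Type) where
  /-- the indices -/
  α : Type
  /-- the members -/
  p : α → G

variable {G : Type} [Group G] (Γ : Subgroup G)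

/-- there is a bijection with finitely many displacements, all of them in `Γ` -/
def Rel (x y : Ms G) : Prop :=
  ∃ e : x.α ≃ y.α, ∃ S : Finset G, (∀ σ ∈ S, σ ∈ Γ) ∧ ∀ a, ∃ σ ∈ S, y.p (e a) = σ * x.p a

theorem Rel.of_eq {x y : Ms G} (e : x.α ≃ y.α) (h : ∀ a, y.p (e a) = x.p a) : Rel Γ x y :=
  ⟨e, {1}, by simpa using Γ.one_mem, fun a => ⟨1, by simp, by simp [h]⟩⟩

theorem Rel.refl' (x : Ms G) : Rel Γ x x := Rel.of_eq Γ (Equiv.refl _) fun _ => rfl

theorem Rel.symm' {x y : Ms G} (h : Rel Γ x y) : Rel Γ y x := by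
  classical
  obtain ⟨e, S, hS, he⟩ := h
  refine ⟨e.symm, S.image (fun s => s⁻¹), ?_, fun b => ?_⟩
  · intro σ hσ
    obtain ⟨τ, hτ, rfl⟩ := Finset.mem_image.1 hσ
    exact Γ.inv_mem (hS τ hτ)
  · obtain ⟨σ, hσ, h⟩ := he (e.symm b)
    refine ⟨σ⁻¹, Finset.mem_image_of_mem _ hσ, ?_⟩
    rw [e.apply_symm_apply] at h
    rw [h]
    group

theorem Rel.trans' {x y z : Ms G} (h : Rel Γ x y) (h' : Rel Γ y z) : Rel Γ x z := by
  classical
  obtain ⟨e, S, hS, he⟩ := h
  obtain ⟨e', S', hS', he'⟩ := h'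
  refine ⟨e.trans e', Finset.image₂ (fun a b => a * b) S' S, ?_, fun a => ?_⟩
  · intro σ hσ
    obtain ⟨a, ha, b, hb, rfl⟩ := Finset.mem_image₂.1 hσ
    exact Γ.mul_mem (hS' a ha) (hS b hb)
  · obtain ⟨σ, hσ, h⟩ := he a
    obtain ⟨σ', hσ', h'⟩ := he' (e a)
    refine ⟨σ' * σ, Finset.mem_image₂_of_mem hσ' hσ, ?_⟩
    show z.p (e' (e a)) = _
    rw [h', h, mul_assoc]

/-- the sum of two families -/
def madd (x y : Ms G) : Ms G := ⟨x.α ⊕ y.α, Sum.elim x.p y.p⟩

/-- the empty family -/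
def mzero (G : Type) : Ms G := ⟨Empty, Empty.elim⟩

theorem Rel.add' {x y x' y' : Ms G} (h : Rel Γ x y) (h' : Rel Γ x' y') :
    Rel Γ (madd x x') (madd y y') := by
  classical
  obtain ⟨e, S, hS, he⟩ := h
  obtain ⟨e', S', hS', he'⟩ := h'
  refine ⟨Equiv.sumCongr e e', S ∪ S', ?_, ?_⟩
  · intro σ hσ
    rcases Finset.mem_union.1 hσ with h | h
    · exact hS σ h
    · exact hS' σ h
  · rintro (a | a)
    · obtain ⟨σ, hσ, h⟩ := he a
      exact ⟨σ, Finset.mem_union_left _ hσ, h⟩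
    · obtain ⟨σ, hσ, h⟩ := he' a
      exact ⟨σ, Finset.mem_union_right _ hσ, h⟩

/-- the equivalence relation -/
def st : Setoid (Ms G) :=
  ⟨Rel Γ, Rel.refl' Γ, fun h => Rel.symm' Γ h, fun h h' => Rel.trans' Γ h h'⟩

/-- the classes of families -/
def Q : Type 1 := Quotient (st Γ)

/-- the class of a family -/
def mk (x : Ms G) : Q Γ := Quotient.mk (st Γ) x

instance : IsEmpty (mzero G).α := inferInstanceAs (IsEmpty Empty)

instance : Zero (Q Γ) := ⟨mk Γ (mzero G)⟩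

instance : Add (Q Γ) := ⟨Quotient.map₂ madd (fun _ _ h _ _ h' => Rel.add' Γ h h')⟩

instance : AddCommMonoid (Q Γ) where
  add_assoc := by
    rintro ⟨x⟩ ⟨y⟩ ⟨z⟩
    refine Quotient.sound (Rel.of_eq Γ (Equiv.sumAssoc _ _ _) ?_)
    rintro ((a | a) | a) <;> rfl
  zero_add := by
    rintro ⟨x⟩
    refine Quotient.sound (Rel.of_eq Γ (Equiv.emptySum Empty _) ?_)
    rintro (a | a)
    · exact a.elim
    · rfl
  add_zero := by
    rintro ⟨x⟩
    refine Quotient.sound (Rel.of_eq Γ (Equiv.sumEmpty _ Empty) ?_)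
    rintro (a | a)
    · rfl
    · exact a.elim
  add_comm := by
    rintro ⟨x⟩ ⟨y⟩
    refine Quotient.sound (Rel.of_eq Γ (Equiv.sumComm _ _) ?_)
    rintro (a | a) <;> rfl
  nsmul := nsmulRec

theorem mk_add (x y : Ms G) : mk Γ (madd x y) = mk Γ x + mk Γ y := rfl

theorem mk_zero : mk Γ (mzero G) = 0 := rfl

/-- the class of a set -/
def cl (T : Set G) : Q Γ := mk Γ ⟨T, Subtype.val⟩

theorem cl_union {T T' : Set G} (h : Disjoint T T') : cl Γ (T ∪ T') = cl Γ T + cl Γ T' := by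
  classical
  symm
  refine Quotient.sound (Rel.of_eq Γ (Equiv.Set.union h).symm ?_)
  rintro (a | a)
  · rfl
  · rfl

theorem cl_empty : cl Γ (∅ : Set G) = 0 :=
  Quotient.sound (Rel.of_eq Γ (Equiv.equivOfIsEmpty _ _) fun a => absurd a.2 (Set.notMem_empty _))

theorem cl_iUnion {ι : Type} [Fintype ι] (T : ι → Set G)
    (h : Pairwise (fun i j => Disjoint (T i) (T j))) : cl Γ (⋃ i, T i) = ∑ i, cl Γ (T i) := by
  classical
  have key : ∀ s : Finset ι, cl Γ (⋃ i ∈ s, T i) = ∑ i ∈ s, cl Γ (T i) := by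
    intro s
    induction s using Finset.induction_on with
    | empty => simpa using cl_empty Γ
    | insert a s ha ih =>
      rw [Finset.set_biUnion_insert, Finset.sum_insert ha, ← ih]
      apply cl_union
      rw [Set.disjoint_iUnion₂_right]
      intro i hi
      exact h (fun e => ha (e ▸ hi))
  have := key Finset.univ
  simpa using this

theorem cl_move (T : Set G) {g : G} (hg : g ∈ Γ) : cl Γ ((fun γ => g * γ) '' T) = cl Γ T := by
  symm
  refine Quotient.sound ⟨Equiv.Set.image (fun γ => g * γ) T (mul_right_injective g), {g}, ?_, ?_⟩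
  · intro σ hσ
    rw [Finset.mem_singleton.1 hσ]
    exact hg
  · intro a
    exact ⟨g, by simp, rfl⟩

theorem absorb {A C : Set G} (F : Finset G) (hF : ∀ σ ∈ F, σ ∈ Γ)
    (h : ∀ γ ∈ C, ∃ σ ∈ F, σ * γ ∈ A) : ∃ d, F.card • cl Γ A = cl Γ C + d := by
  classical
  choose! s hs1 hs2 using h
  let Cs : F → Set G := fun σ => {γ | γ ∈ C ∧ s γ = σ}
  have h1 : C = ⋃ σ, Cs σ := by
    ext γ
    simp only [Set.mem_iUnion]
    constructor
    · intro hγ
      exact ⟨⟨s γ, hs1 γ hγ⟩, hγ, rfl⟩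
    · rintro ⟨σ, hγ, -⟩
      exact hγ
  have h2 : cl Γ C = ∑ σ, cl Γ (Cs σ) := by
    conv_lhs => rw [h1]
    apply cl_iUnion
    intro σ τ hστ
    rw [Set.disjoint_left]
    rintro γ ⟨-, h3⟩ ⟨-, h4⟩
    exact hστ (Subtype.ext (h3.symm.trans h4))
  have h3 : ∀ σ : F, cl Γ A = cl Γ (Cs σ) + cl Γ (A \ ((fun γ => (σ : G) * γ) '' Cs σ)) := by
    intro σ
    have hsub : (fun γ => (σ : G) * γ) '' Cs σ ⊆ A := by
      rintro _ ⟨γ, ⟨hγ, hs⟩, rfl⟩
      show (σ : G) * γ ∈ A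
      rw [← hs]
      exact hs2 γ hγ
    rw [← cl_move Γ (Cs σ) (hF σ σ.2), ← cl_union Γ Set.disjoint_sdiff_right,
      Set.union_sdiff_cancel hsub]
  refine ⟨∑ σ : F, cl Γ (A \ ((fun γ => (σ : G) * γ) '' Cs σ)), ?_⟩
  rw [h2, ← Finset.sum_add_distrib, ← Finset.sum_congr rfl fun σ _ => h3 σ, Finset.sum_const,
    Finset.card_univ, Fintype.card_coe]

theorem sep {M : Type*} [AddCommMonoid M] {a b c d e : M} {n : ℕ} (h : a + c = b + c)
    (h1 : n • a = c + d) (h2 : n • b = c + e) : (2 * n) • a = (2 * n) • b := by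
  have key : ∀ {a b c d : M}, a + c = b + c → n • a = c + d →
      ∀ k : ℕ, k • a + n • a = k • b + n • a := by
    intro a b c d h h1 k
    have h0 : a + n • a = b + n • a := by
      rw [h1, ← add_assoc, h, add_assoc]
    induction k with
    | zero => simp
    | succ k ih =>
      rw [succ_nsmul, succ_nsmul, add_assoc, h0, add_left_comm, ih, add_left_comm,
        ← add_assoc (k • b), add_comm]
  have h3 := key h h1 n
  have h4 := key h.symm h2 n
  rw [two_mul, add_nsmul, add_nsmul, h3, h4, add_comm]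

theorem nsmul_cl (A : Set G) (N : ℕ) :
    N • cl Γ A = mk Γ ⟨Fin N × A, fun q => (q.2 : G)⟩ := by
  induction N with
  | zero =>
    rw [zero_nsmul, ← mk_zero]
    exact Quotient.sound (Rel.of_eq Γ (Equiv.equivOfIsEmpty _ _) fun a => a.elim)
  | succ N ih =>
    rw [succ_nsmul, ih]
    show mk Γ (madd ⟨Fin N × A, fun q => (q.2 : G)⟩ ⟨A, Subtype.val⟩) = _
    refine Quotient.sound (Rel.of_eq Γ
      (((Equiv.sumCongr (Equiv.refl _) (Equiv.uniqueProd A (Fin 1)).symm).trans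
        (Equiv.sumProdDistrib _ _ _).symm).trans (Equiv.prodCongr finSumFinEquiv (Equiv.refl _))) ?_)
    rintro (⟨i, a⟩ | a) <;> rfl

theorem exists_equiv {A B : Set G} {N : ℕ} (h : N • cl Γ A = N • cl Γ B) :
    ∃ (e : Fin N × A ≃ Fin N × B) (S : Finset G), (∀ σ ∈ S, σ ∈ Γ) ∧
      ∀ q, ∃ σ ∈ S, ((e q).2 : G) = σ * (q.2 : G) := by
  rw [nsmul_cl, nsmul_cl] at h
  obtain ⟨e, S, hS, he⟩ := Quotient.exact h
  exact ⟨e, S, hS, he⟩

end Pool.Agent.Y779.RO
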