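import Pool.Agent.Helper382.RO4
import Pool.Agent.Y779.RO.Ms

/-!
# Cancellation for regular open sets: multiples and a common summand
-/

set_option autoImplicit false
set_option linter.all false

namespace Pool.Agent.Y779.RO

open Pool.Agent.H382RO Finset Classical Topology

variable {d : ℕ}

/-- the members of the group which move the base point into `W` -/
def Tg (Γ : Subgroup (EE d ≃ᵢ EE d)) (x0 : EE d) (W : Set (EE d)) : Set (EE d ≃ᵢ EE d) :=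
  {γ | γ ∈ Γ ∧ γ x0 ∈ W}

theorem Phi_join {Γ : Subgroup (EE d ≃ᵢ EE d)} {x0 : EE d} {k : ℕ} {P : Fin k → Set (EE d)}
    (hPo : ∀ i, IsOpen (P i)) (hPd : Pairwise (fun i j => Disjoint (P i) (P j))) {W : Set (EE d)}
    (hW : interior (closure (⋃ i, P i)) = W) (hgen : ∀ γ ∈ Γ, ∀ i, γ x0 ∉ frontier (P i)) :
    cl Γ (Tg Γ x0 W) = ∑ i, cl Γ (Tg Γ x0 (P i)) := by
  have h1 : Tg Γ x0 W = ⋃ i, Tg Γ x0 (P i) := by
    ext γ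
    simp only [Set.mem_iUnion]
    constructor
    · rintro ⟨hγ, h2⟩
      rw [← hW] at h2
      have h3 := interior_subset h2
      rw [closure_iUnion_of_finite] at h3
      obtain ⟨i, hi⟩ := Set.mem_iUnion.mp h3
      exact ⟨i, hγ, mem_of_closure (hPo i) hi (hgen γ hγ i)⟩
    · rintro ⟨i, hγ, h2⟩
      refine ⟨hγ, ?_⟩
      rw [← hW]
      exact (isOpen_iUnion hPo).subset_interior_iff.mpr subset_closure (Set.mem_iUnion.mpr ⟨i, h2⟩)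
  rw [h1]
  apply cl_iUnion
  intro i j hij
  rw [Set.disjoint_left]
  rintro γ ⟨-, h2⟩ ⟨-, h3⟩
  exact Set.disjoint_left.mp (hPd hij) h2 h3

theorem Phi_move {Γ : Subgroup (EE d ≃ᵢ EE d)} {x0 : EE d} {g : EE d ≃ᵢ EE d} (hg : g ∈ Γ)
    (P : Set (EE d)) : cl Γ (Tg Γ x0 (g '' P)) = cl Γ (Tg Γ x0 P) := by
  rw [← cl_move Γ (Tg Γ x0 P) hg]
  congr 1
  ext γ
  constructor
  · rintro ⟨hγ, p, hp, hpe⟩
    refine ⟨g⁻¹ * γ, ⟨Γ.mul_mem (Γ.inv_mem hg) hγ, ?_⟩, by group⟩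
    show g⁻¹ (γ x0) ∈ P
    rw [← hpe]
    have : g⁻¹ (g p) = p := g.symm_apply_apply p
    rw [this]
    exact hp
  · rintro ⟨δ, ⟨hδ, hδ2⟩, rfl⟩
    exact ⟨Γ.mul_mem hg hδ, δ x0, hδ2, rfl⟩

theorem hall_of_equiv {Γ : Subgroup (EE d ≃ᵢ EE d)} {Q : Set (EE d)}
    {Sg : Finset (EE d ≃ᵢ EE d)} {x : EE d} {A B : Set (EE d)} {N : ℕ} (hN : 0 < N)
    (hAQ : A ⊆ Q) (hBQ : B ⊆ Q) (e : Fin N × Tg Γ x A ≃ Fin N × Tg Γ x B)
    (he : ∀ q, ∃ σ ∈ Sg, ((e q).2 : EE d ≃ᵢ EE d) = σ * (q.2 : EE d ≃ᵢ EE d))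
    (D : Finset (EE d ≃ᵢ EE d)) :
    cnt {γ | γ ∈ Γ ∧ γ x ∈ A} (er (nbx Q Sg x) D) ≤ cnt {γ | γ ∈ Γ ∧ γ x ∈ B} D := by
  obtain ⟨SA, hSA⟩ : ∃ S : Set (EE d ≃ᵢ EE d), S = {γ : EE d ≃ᵢ EE d | γ ∈ Γ ∧ γ x ∈ A} := ⟨_, rfl⟩
  obtain ⟨SB, hSB⟩ : ∃ S : Set (EE d ≃ᵢ EE d), S = {γ : EE d ≃ᵢ EE d | γ ∈ Γ ∧ γ x ∈ B} := ⟨_, rfl⟩
  have mSA : ∀ γ, γ ∈ SA ↔ γ ∈ Γ ∧ γ x ∈ A := by intro γ; rw [hSA]; rfl
  have mSB : ∀ γ, γ ∈ SB ↔ γ ∈ Γ ∧ γ x ∈ B := by intro γ; rw [hSB]; rfl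
  rw [← hSA, ← hSB]
  set nb := nbx Q Sg x with hnb
  set S := (univ : Finset (Fin N)) ×ˢ ((er nb D).filter (fun γ => γ ∈ SA)) with hSdef
  set T := (univ : Finset (Fin N)) ×ˢ (D.filter (fun γ => γ ∈ SB)) with hTdef
  have key : ∀ p ∈ S, ∃ q ∈ T, ∃ h : p.2 ∈ Tg Γ x A, ((e (p.1, ⟨p.2, h⟩)).1, ((e (p.1, ⟨p.2, h⟩)).2 : EE d ≃ᵢ EE d)) = q := by
    rintro ⟨i, γ⟩ hp
    obtain ⟨-, hp1⟩ := Finset.mem_product.mp hp
    obtain ⟨hp2, hp3⟩ := Finset.mem_filter.mp hp1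
    have hγ : γ ∈ Tg Γ x A := (mSA γ).mp hp3
    obtain ⟨hγD, hγN⟩ := mem_er.mp hp2
    refine ⟨_, ?_, hγ, rfl⟩
    obtain ⟨σ, hσ, hσ2⟩ := he (i, ⟨γ, hγ⟩)
    have hB : ((e (i, ⟨γ, hγ⟩)).2 : EE d ≃ᵢ EE d) ∈ Tg Γ x B := (e (i, ⟨γ, hγ⟩)).2.2
    refine Finset.mem_product.mpr ⟨Finset.mem_univ _, Finset.mem_filter.mpr ⟨hγN ?_, (mSB _).mpr hB⟩⟩
    rw [hnb, mem_nbx (hAQ hγ.2)]
    exact ⟨σ, hσ, hσ2, hBQ hB.2⟩
  choose! F hF1 hF2 hF3 using key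
  have hcard : S.card ≤ T.card := by
    apply Finset.card_le_card_of_injOn F (fun p hp => hF1 p hp)
    intro p hp q hq hpq
    have h1 := hF3 p hp
    have h2 := hF3 q hq
    rw [← hpq, ← h1] at h2
    have h3 : e (q.1, ⟨q.2, hF2 q hq⟩) = e (p.1, ⟨p.2, hF2 p hp⟩) := by
      apply Prod.ext
      · exact (Prod.mk.inj h2).1
      · exact Subtype.ext (Prod.mk.inj h2).2
    have h4 := e.injective h3
    apply Prod.ext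
    · exact (congrArg Prod.fst h4).symm
    · exact (congrArg (fun z => ((z.2 : Tg Γ x A) : EE d ≃ᵢ EE d)) h4).symm
  rw [hSdef, hTdef, Finset.card_product, Finset.card_product] at hcard
  simp only [Finset.card_univ, Fintype.card_fin] at hcard
  simp only [cnt]
  exact_mod_cast Nat.le_of_mul_le_mul_left hcard hN

/-- the end of the proof of the cancellation theorem of the library, for a given base point -/
theorem finish (hd : Nonempty (Fin d)) {A B : Set (EE d)} (hA : interior (closure A) = A)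
    (hAb : Bornology.IsBounded A) (hB : interior (closure B) = B)
    (hAne : A.Nonempty) (hBne : B.Nonempty) (τ : TorSys d)
    (hAQ : A ⊆ Qc (d := d) τ.ℓ) (hBQ : B ⊆ Qc (d := d) τ.ℓ)
    (hcou : (τ.Γ : Set (EE d ≃ᵢ EE d)).Countable) {x0 : EE d} (hz : Base τ x0)
    (gQ : ∀ γ ∈ τ.Γ, γ x0 ∉ frontier (Qc (d := d) τ.ℓ)) (gA : ∀ γ ∈ τ.Γ, γ x0 ∉ frontier A)
    (gB : ∀ γ ∈ τ.Γ, γ x0 ∉ frontier B)
    (H1 : ∀ D : Finset (EE d ≃ᵢ EE d), cnt {γ | γ ∈ τ.Γ ∧ γ x0 ∈ A} (er (nbx (Qc (d := d) τ.ℓ) τ.Sg x0) D) ≤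
      cnt {γ | γ ∈ τ.Γ ∧ γ x0 ∈ B} D)
    (H2 : ∀ D : Finset (EE d ≃ᵢ EE d), cnt {γ | γ ∈ τ.Γ ∧ γ x0 ∈ B} (er (nbx (Qc (d := d) τ.ℓ) τ.Sg x0) D) ≤
      cnt {γ | γ ∈ τ.Γ ∧ γ x0 ∈ A} D) : ROE A B := by
  have hAo : IsOpen A := hA ▸ isOpen_interior
  have hBo : IsOpen B := hB ▸ isOpen_interior
  obtain ⟨ρA, hρA⟩ := synd hz hAo hAne hAQ
  obtain ⟨ρB, hρB⟩ := synd hz hBo hBne hBQ
  set nb := nbx (Qc (d := d) τ.ℓ) τ.Sg x0 with hnb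
  have hs := nbx_self (Q := Qc (d := d) τ.ℓ) τ.one x0
  have hsym := nbx_symm (Q := Qc (d := d) τ.ℓ) τ.inv x0
  have hre := nbx_re (Q := Qc (d := d) τ.ℓ) τ.sub x0
  set ρ := max ρA ρB with hρ
  have hsA : ∀ v ∈ Rex τ.Γ (Qc (d := d) τ.ℓ) x0, ∃ a ∈ ball nb ρ v, a ∈ {γ : EE d ≃ᵢ EE d | γ ∈ τ.Γ ∧ γ x0 ∈ A} := by
    intro v hv
    obtain ⟨a, ha, ha2⟩ := hρA v hv
    exact ⟨a, ball_mono hs (le_max_left _ _) v ha, (ball_re hre hv ha).1, ha2⟩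
  have hsB : ∀ v ∈ Rex τ.Γ (Qc (d := d) τ.ℓ) x0, ∃ a ∈ ball nb ρ v, a ∈ {γ : EE d ≃ᵢ EE d | γ ∈ τ.Γ ∧ γ x0 ∈ B} := by
    intro v hv
    obtain ⟨a, ha, ha2⟩ := hρB v hv
    exact ⟨a, ball_mono hs (le_max_right _ _) v ha, (ball_re hre hv ha).1, ha2⟩
  have hR : 1 ≤ 2 * ρ + 2 := by omega
  let σ : Sys (EE d) := mkSys τ hz hd hR hcou gQ
  have hcard : ∀ v, (nb v).card ≤ τ.Sg.card + 1 := nbx_card x0
  have hN : Adj (ball nb (2 * ρ + 2)) (Rex τ.Γ (Qc (d := d) τ.ℓ) x0) := adj0 σ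
  have hnbN : ∀ v, nb v ⊆ ball nb (2 * ρ + 2) v := fun v w hw => ball_mono hs hR v (ball_one.mpr hw)
  have hcntmono : ∀ (Z : Set (EE d ≃ᵢ EE d)) (D : Finset (EE d ≃ᵢ EE d)),
      cnt Z (er (ball nb (2 * ρ + 2)) D) ≤ cnt Z (er nb D) := by
    intro Z D
    apply cnt_mono
    intro v hv
    obtain ⟨h3, h4⟩ := mem_er.mp hv
    exact mem_er.mpr ⟨h3, (hnbN v).trans h4⟩
  have hSt : St σ A B := by
    refine ⟨hAo, hBo, hAQ, hBQ, gA, gB, ((τ.Sg.card + 1 : ℕ) : ℤ) ^ (2 * (2 * ρ + 2) + ρ), ?_, 0, ?_, ?_⟩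
    · have : 1 ≤ (τ.Sg.card + 1) ^ (2 * (2 * ρ + 2) + ρ) := Nat.one_le_pow _ _ (by omega)
      exact_mod_cast this
    · intro D _
      constructor
      · simp only [hh, sub_nonneg]
        exact (hcntmono _ D).trans (H1 D)
      · simp only [hh, sub_nonneg]
        exact (hcntmono _ D).trans (H2 D)
    · intro D hD hred
      right
      rcases D.eq_empty_or_nonempty with rfl | hne
      · have e1 : bd (NN σ σ.x0) (∅ : Finset (EE d ≃ᵢ EE d)) = 0 := bd_empty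
        rw [e1]
        simp [hh, er, cnt_empty]
      · have hopen : dil (ball nb (2 * ρ + 2)) (er (ball nb (2 * ρ + 2)) D) = D := by
          by_contra hc
          exact hred (red_open hN hD hne hc)
        exact ⟨slack hs hsym hcard le_rfl hsA (fun D _ => H1 D) hD hopen,
          slack hs hsym hcard le_rfl hsB (fun D _ => H2 D) hD hopen⟩
  exact roe_of_iterate σ hA hB hAb hSt

end Pool.Agent.Y779.RO
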