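import Pool.Agent.Y779.RO.Main

/-!
# Cancellation for regular open sets: groups of isometries containing the translations
-/

set_option autoImplicit false
set_option linter.all false

namespace Pool.Agent.Y779.RO

open Pool.Agent.H382RO Finset Classical Topology

variable {d : ℕ}

/-- equidecomposability with isometries of a group `H` -/
def ROEin (H : Subgroup (EE d ≃ᵢ EE d)) (A B : Set (EE d)) : Prop :=
  ∃ n : ℕ, ∃ P : Fin n → Set (EE d), ∃ g : Fin n → (EE d ≃ᵢ EE d), (∀ i, g i ∈ H) ∧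
    (∀ i, interior (closure (P i)) = P i ∧ Bornology.IsBounded (P i)) ∧
    Pairwise (fun i j => Disjoint (P i) (P j)) ∧
    Pairwise (fun i j => Disjoint ((g i) '' (P i)) ((g j) '' (P j))) ∧
    interior (closure (⋃ i, P i)) = A ∧
    interior (closure (⋃ i, (g i) '' (P i))) = B

theorem ROEin.mono {H H' : Subgroup (EE d ≃ᵢ EE d)} {A B : Set (EE d)} (h : ROEin H A B)
    (hH : H ≤ H') : ROEin H' A B := by
  obtain ⟨n, P, g, h0, h1, h2, h3, h4, h5⟩ := h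
  exact ⟨n, P, g, fun i => hH (h0 i), h1, h2, h3, h4, h5⟩

theorem FF_mem (σ : Sys (EE d)) : ∀ g ∈ FF σ, g ∈ σ.Γ := by
  intro g hg
  rcases Finset.mem_union.mp hg with h | h
  · exact wd_mem σ.sub _ g h
  · obtain ⟨g', h', rfl⟩ := Finset.mem_image.mp h
    exact σ.Γ.inv_mem (wd_mem σ.sub _ g' h')

theorem mkTor_le {ℓ : ℝ} (hℓ : 0 < ℓ) {G0 : Set (EE d ≃ᵢ EE d)} (H : Subgroup (EE d ≃ᵢ EE d))
    (htr : ∀ v : EE d, tr v ∈ H) (hG : ∀ g ∈ G0, g ∈ H) : (mkTor ℓ hℓ ∅ G0).Γ ≤ H := by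
  show Subgroup.closure _ ≤ _
  rw [Subgroup.closure_le]
  have key : ∀ g : EE d ≃ᵢ EE d, g ∈ insert 1 ((∅ : Finset (EE d ≃ᵢ EE d)) ∪ ((univ : Finset (Fin d × Bool)) ×ˢ (({1, -1} : Finset ℤ) ×ˢ Finset.Icc (-1:ℤ) 1)).image
    (fun q => tr (EuclideanSpace.single q.1.1 ((q.2.1:ℝ) * ab ℓ q.1.2 + (q.2.2:ℝ) * (2 * ℓ))))) → g ∈ H := by
    intro g hg
    rcases Finset.mem_insert.mp hg with rfl | h2
    · exact H.one_mem
    · rcases Finset.mem_union.mp h2 with h3 | h3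
      · exact absurd h3 (Finset.notMem_empty _)
      · obtain ⟨q, -, rfl⟩ := Finset.mem_image.mp h3
        exact htr _
  rintro g (hg | hg | ⟨i, rfl⟩)
  · rcases Finset.mem_union.mp (Finset.mem_coe.mp hg) with h1 | h1
    · exact key g h1
    · obtain ⟨g', h2, rfl⟩ := Finset.mem_image.mp h1
      exact H.inv_mem (key g' h2)
  · exact hG g hg
  · exact htr _

theorem roe_of_iterate' (σ : Sys (EE d)) {A B : Set (EE d)} (hA : interior (closure A) = A)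
    (hB : interior (closure B) = B) (hAb : Bornology.IsBounded A) (hS : St σ A B) :
    ROEin σ.Γ A B := by
  obtain ⟨J, g, h1, h2, h3, h4, h5, h6, h7, h8⟩ := iterate σ hS
  let e := (FF σ).equivFin
  let P0 : (FF σ) → Set (EE d) := fun h => ⋃ n : ℕ, ⋃ _ : g n = (h : EE d ≃ᵢ EE d), J n
  have hP0o : ∀ h, IsOpen (P0 h) := fun h => isOpen_iUnion fun n => isOpen_iUnion fun _ => h1 n
  have hP0A : ∀ h, P0 h ⊆ A := fun h => Set.iUnion_subset fun n => Set.iUnion_subset fun _ => h3 n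
  have himg : ∀ h : FF σ, (h : EE d ≃ᵢ EE d) '' P0 h = ⋃ n : ℕ, ⋃ _ : g n = (h : EE d ≃ᵢ EE d), g n '' J n := by
    intro h
    simp only [P0, Set.image_iUnion]
    apply Set.iUnion_congr; intro n
    apply Set.iUnion_congr; intro hn
    rw [hn]
  have hP0io : ∀ h : FF σ, IsOpen ((h : EE d ≃ᵢ EE d) '' P0 h) := fun h =>
    (h : EE d ≃ᵢ EE d).toHomeomorph.isOpenMap _ (hP0o h)
  have hd1 : ∀ h k : FF σ, h ≠ k → Disjoint (P0 h) (P0 k) := by
    intro h k hhk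
    rw [Set.disjoint_left]
    intro x hx hx2
    simp only [P0, Set.mem_iUnion] at hx hx2
    obtain ⟨n, hn, hxn⟩ := hx
    obtain ⟨m, hm, hxm⟩ := hx2
    have hnm : n ≠ m := by
      rintro rfl; exact hhk (Subtype.ext (hn.symm.trans hm))
    exact Set.disjoint_left.mp (h5 n m hnm) hxn hxm
  have hd2 : ∀ h k : FF σ, h ≠ k → Disjoint ((h : EE d ≃ᵢ EE d) '' P0 h) ((k : EE d ≃ᵢ EE d) '' P0 k) := by
    intro h k hhk
    rw [himg, himg, Set.disjoint_left]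
    intro x hx hx2
    simp only [Set.mem_iUnion] at hx hx2
    obtain ⟨n, hn, hxn⟩ := hx
    obtain ⟨m, hm, hxm⟩ := hx2
    have hnm : n ≠ m := by
      rintro rfl; exact hhk (Subtype.ext (hn.symm.trans hm))
    exact Set.disjoint_left.mp (h6 n m hnm) hxn hxm
  have hic : ∀ (k : EE d ≃ᵢ EE d) (S : Set (EE d)), k '' interior (closure S) = interior (closure (k '' S)) := by
    intro k S
    have e1 := k.toHomeomorph.image_interior (closure S)
    have e2 := k.toHomeomorph.image_closure S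
    calc k '' interior (closure S) = interior (k '' closure S) := e1
      _ = interior (closure (k '' S)) := by rw [show k '' closure S = closure (k '' S) from e2]
  refine ⟨(FF σ).card, fun i => interior (closure (P0 (e.symm i))), fun i => (e.symm i : EE d ≃ᵢ EE d),
    fun i => FF_mem σ _ (e.symm i).2, ?_, ?_, ?_, ?_, ?_⟩
  · intro i
    constructor
    · apply subset_antisymm
      · exact interior_mono (closure_minimal interior_subset isClosed_closure)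
      · exact interior_maximal subset_closure isOpen_interior
    · exact hAb.closure.subset (interior_subset.trans (closure_mono (hP0A _)))
  · intro i j hij
    exact disj_reg (hP0o _) (hd1 _ _ (e.symm.injective.ne hij))
  · intro i j hij
    rw [hic, hic]
    exact disj_reg (hP0io _) (hd2 _ _ (e.symm.injective.ne hij))
  · have hcl : closure (⋃ i, interior (closure (P0 (e.symm i)))) = closure A := by
      apply subset_antisymm
      · apply closure_minimal _ isClosed_closure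
        exact Set.iUnion_subset fun i => interior_subset.trans (closure_mono (hP0A _))
      · apply closure_minimal _ isClosed_closure
        refine h7.trans (closure_mono ?_)
        intro x hx
        obtain ⟨n, hn⟩ := Set.mem_iUnion.mp hx
        refine Set.mem_iUnion.mpr ⟨e ⟨g n, h2 n⟩, ?_⟩
        rw [Equiv.symm_apply_apply]
        apply interior_maximal subset_closure (hP0o _)
        exact Set.mem_iUnion.mpr ⟨n, Set.mem_iUnion.mpr ⟨rfl, hn⟩⟩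
    rw [hcl, hA]
  · have hcl : closure (⋃ i, (e.symm i : EE d ≃ᵢ EE d) '' interior (closure (P0 (e.symm i)))) = closure B := by
      apply subset_antisymm
      · apply closure_minimal _ isClosed_closure
        apply Set.iUnion_subset
        intro i
        rw [hic]
        refine interior_subset.trans (closure_mono ?_)
        rw [himg]
        exact Set.iUnion_subset fun n => Set.iUnion_subset fun _ => h4 n
      · apply closure_minimal _ isClosed_closure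
        refine h8.trans (closure_mono ?_)
        intro x hx
        obtain ⟨n, hn⟩ := Set.mem_iUnion.mp hx
        refine Set.mem_iUnion.mpr ⟨e ⟨g n, h2 n⟩, ?_⟩
        rw [Equiv.symm_apply_apply, hic]
        apply interior_maximal subset_closure (hP0io _)
        rw [himg]
        exact Set.mem_iUnion.mpr ⟨n, Set.mem_iUnion.mpr ⟨rfl, hn⟩⟩
    rw [hcl, hB]

/-- the end of the proof of the cancellation theorem of the library, for a given base point -/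
theorem finish' (hd : Nonempty (Fin d)) {A B : Set (EE d)} (hA : interior (closure A) = A)
    (hAb : Bornology.IsBounded A) (hB : interior (closure B) = B)
    (hAne : A.Nonempty) (hBne : B.Nonempty) (τ : TorSys d)
    (hAQ : A ⊆ Qc (d := d) τ.ℓ) (hBQ : B ⊆ Qc (d := d) τ.ℓ)
    (hcou : (τ.Γ : Set (EE d ≃ᵢ EE d)).Countable) {x0 : EE d} (hz : Base τ x0)
    (gQ : ∀ γ ∈ τ.Γ, γ x0 ∉ frontier (Qc (d := d) τ.ℓ)) (gA : ∀ γ ∈ τ.Γ, γ x0 ∉ frontier A)
    (gB : ∀ γ ∈ τ.Γ, γ x0 ∉ frontier B)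
    (H1 : ∀ D : Finset (EE d ≃ᵢ EE d), cnt {γ | γ ∈ τ.Γ ∧ γ x0 ∈ A} (er (nbx (Qc (d := d) τ.ℓ) τ.Sg x0) D) ≤
      cnt {γ | γ ∈ τ.Γ ∧ γ x0 ∈ B} D)
    (H2 : ∀ D : Finset (EE d ≃ᵢ EE d), cnt {γ | γ ∈ τ.Γ ∧ γ x0 ∈ B} (er (nbx (Qc (d := d) τ.ℓ) τ.Sg x0) D) ≤
      cnt {γ | γ ∈ τ.Γ ∧ γ x0 ∈ A} D) : ROEin τ.Γ A B := by
  have hAo : IsOpen A := hA ▸ isOpen_interior
  have hBo : IsOpen B := hB ▸ isOpen_interior
  obtain ⟨ρA, hρA⟩ := synd hz hAo hAne hAQ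
  obtain ⟨ρB, hρB⟩ := synd hz hBo hBne hBQ
  set nb := nbx (Qc (d := d) τ.ℓ) τ.Sg x0 with hnb
  have hs := nbx_self (Q := Qc (d := d) τ.ℓ) τ.one x0
  have hsym := nbx_symm (Q := Qc (d := d) τ.ℓ) τ.inv x0
  have hre := nbx_re (Q := Qc (d := d) τ.ℓ) τ.sub x0
  set ρ := max ρA ρB with hρ
  have hsA : ∀ v ∈ Rex τ.Γ (Qc (d := d) τ.ℓ) x0, ∃ a ∈ ball nb ρ v, a ∈ {γ : EE d ≃ᵢ EE d | γ ∈ τ.Γ ∧ γ x0 ∈ A} := by
    intro v hv
    obtain ⟨a, ha, ha2⟩ := hρA v hv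
    exact ⟨a, ball_mono hs (le_max_left _ _) v ha, (ball_re hre hv ha).1, ha2⟩
  have hsB : ∀ v ∈ Rex τ.Γ (Qc (d := d) τ.ℓ) x0, ∃ a ∈ ball nb ρ v, a ∈ {γ : EE d ≃ᵢ EE d | γ ∈ τ.Γ ∧ γ x0 ∈ B} := by
    intro v hv
    obtain ⟨a, ha, ha2⟩ := hρB v hv
    exact ⟨a, ball_mono hs (le_max_right _ _) v ha, (ball_re hre hv ha).1, ha2⟩
  have hR : 1 ≤ 2 * ρ + 2 := by omega
  let σ : Sys (EE d) := mkSys τ hz hd hR hcou gQ
  have hcard : ∀ v, (nb v).card ≤ τ.Sg.card + 1 := nbx_card x0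
  have hN : Adj (ball nb (2 * ρ + 2)) (Rex τ.Γ (Qc (d := d) τ.ℓ) x0) := adj0 σ
  have hnbN : ∀ v, nb v ⊆ ball nb (2 * ρ + 2) v := fun v w hw => ball_mono hs hR v (ball_one.mpr hw)
  have hcntmono : ∀ (Z : Set (EE d ≃ᵢ EE d)) (D : Finset (EE d ≃ᵢ EE d)),
      cnt Z (er (ball nb (2 * ρ + 2)) D) ≤ cnt Z (er nb D) := by
    intro Z D
    apply cnt_mono
    intro v hv
    obtain ⟨h3, h4⟩ := mem_er.mp hv
    exact mem_er.mpr ⟨h3, (hnbN v).trans h4⟩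
  have hSt : St σ A B := by
    refine ⟨hAo, hBo, hAQ, hBQ, gA, gB, ((τ.Sg.card + 1 : ℕ) : ℤ) ^ (2 * (2 * ρ + 2) + ρ), ?_, 0, ?_, ?_⟩
    · have : 1 ≤ (τ.Sg.card + 1) ^ (2 * (2 * ρ + 2) + ρ) := Nat.one_le_pow _ _ (by omega)
      exact_mod_cast this
    · intro D _
      constructor
      · simp only [hh, sub_nonneg]
        exact (hcntmono _ D).trans (H1 D)
      · simp only [hh, sub_nonneg]
        exact (hcntmono _ D).trans (H2 D)
    · intro D hD hred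
      right
      rcases D.eq_empty_or_nonempty with rfl | hne
      · have e1 : bd (NN σ σ.x0) (∅ : Finset (EE d ≃ᵢ EE d)) = 0 := bd_empty
        rw [e1]
        simp [hh, er, cnt_empty]
      · have hopen : dil (ball nb (2 * ρ + 2)) (er (ball nb (2 * ρ + 2)) D) = D := by
          by_contra hc
          exact hred (red_open hN hD hne hc)
        exact ⟨slack hs hsym hcard le_rfl hsA (fun D _ => H1 D) hD hopen,
          slack hs hsym hcard le_rfl hsB (fun D _ => H2 D) hD hopen⟩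
  exact roe_of_iterate' σ hA hB hAb hSt

/-- from an equality of classes to the equidecomposition -/
theorem roe_of_class' (hd : Nonempty (Fin d)) {A B : Set (EE d)} (hA : interior (closure A) = A)
    (hAb : Bornology.IsBounded A) (hB : interior (closure B) = B)
    (hAne : A.Nonempty) (hBne : B.Nonempty) {ℓ : ℝ} (hℓ : 0 < ℓ) {G0 : Set (EE d ≃ᵢ EE d)}
    (hAQ : A ⊆ Qc (d := d) ℓ) (hBQ : B ⊆ Qc (d := d) ℓ)
    (hcou : ((mkTor ℓ hℓ ∅ G0).Γ : Set (EE d ≃ᵢ EE d)).Countable) {x0 : EE d}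
    (hz : Base (mkTor ℓ hℓ ∅ G0) x0)
    (gQ : ∀ γ ∈ (mkTor ℓ hℓ ∅ G0).Γ, γ x0 ∉ frontier (Qc (d := d) ℓ))
    (gA : ∀ γ ∈ (mkTor ℓ hℓ ∅ G0).Γ, γ x0 ∉ frontier A)
    (gB : ∀ γ ∈ (mkTor ℓ hℓ ∅ G0).Γ, γ x0 ∉ frontier B) {N : ℕ} (hN : 0 < N)
    (h : N • cl (mkTor ℓ hℓ ∅ G0).Γ (Tg (mkTor ℓ hℓ ∅ G0).Γ x0 A) =
      N • cl (mkTor ℓ hℓ ∅ G0).Γ (Tg (mkTor ℓ hℓ ∅ G0).Γ x0 B)) : ROEin (mkTor ℓ hℓ ∅ G0).Γ A B := by
  obtain ⟨Γ0, hΓ0⟩ : ∃ Γ0 : Subgroup (EE d ≃ᵢ EE d), Γ0 = (mkTor ℓ hℓ ∅ G0).Γ := ⟨_, rfl⟩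
  obtain ⟨e, S, hS, he⟩ := exists_equiv _ h
  let τ := mkTor ℓ hℓ S ((mkTor ℓ hℓ ∅ G0).Γ : Set (EE d ≃ᵢ EE d))
  have hτ : τ.Γ = (mkTor ℓ hℓ ∅ G0).Γ := by
    apply le_antisymm
    · show Subgroup.closure _ ≤ _
      rw [Subgroup.closure_le]
      rintro g (hg | hg | ⟨i, rfl⟩)
      · rcases Finset.mem_union.mp (Finset.mem_coe.mp hg) with h1 | h1
        · rcases Finset.mem_insert.mp h1 with rfl | h2
          · exact Subgroup.one_mem _
          · rcases Finset.mem_union.mp h2 with h3 | h3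
            · exact hS g h3
            · refine (mkTor ℓ hℓ ∅ G0).sub g ?_
              exact Finset.mem_union_left _ (Finset.mem_insert_of_mem (Finset.mem_union_right _ h3))
        · obtain ⟨g', h2, rfl⟩ := Finset.mem_image.mp h1
          rcases Finset.mem_insert.mp h2 with rfl | h2
          · exact Subgroup.inv_mem _ (Subgroup.one_mem _)
          · rcases Finset.mem_union.mp h2 with h3 | h3
            · exact Subgroup.inv_mem _ (hS g' h3)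
            · refine Subgroup.inv_mem _ ((mkTor ℓ hℓ ∅ G0).sub g' ?_)
              exact Finset.mem_union_left _ (Finset.mem_insert_of_mem (Finset.mem_union_right _ h3))
      · exact hg
      · exact (mkTor ℓ hℓ ∅ G0).tl i
    · intro g hg
      exact mkTor_G0 hg
  have hmem : ∀ γ, γ ∈ τ.Γ ↔ γ ∈ (mkTor ℓ hℓ ∅ G0).Γ := fun γ => by rw [hτ]
  have hz' : Base τ x0 :=
    base_congr (τ := mkTor ℓ hℓ ∅ G0) (τ' := τ) rfl (fun γ hγ => (hmem γ).1 hγ) hz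
  have he1 : ∀ q, ∃ σ ∈ τ.Sg, ((e q).2 : EE d ≃ᵢ EE d) = σ * (q.2 : EE d ≃ᵢ EE d) := by
    intro q
    obtain ⟨σ, hσ, h1⟩ := he q
    exact ⟨σ, mkTor_S0 hσ, h1⟩
  have he2 : ∀ q, ∃ σ ∈ τ.Sg, ((e.symm q).2 : EE d ≃ᵢ EE d) = σ * (q.2 : EE d ≃ᵢ EE d) := by
    intro q
    obtain ⟨σ, hσ, h1⟩ := he1 (e.symm q)
    rw [e.apply_symm_apply] at h1
    refine ⟨σ⁻¹, τ.inv σ hσ, ?_⟩
    rw [h1]
    group
  rw [← hτ]
  refine finish' hd hA hAb hB hAne hBne τ hAQ hBQ (by rw [hτ]; exact hcou) hz'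
    (fun γ hγ => gQ γ ((hmem γ).1 hγ)) (fun γ hγ => gA γ ((hmem γ).1 hγ))
    (fun γ hγ => gB γ ((hmem γ).1 hγ)) ?_ ?_
  · intro D
    have h1 := hall_of_equiv (Γ := (mkTor ℓ hℓ ∅ G0).Γ) (Q := Qc (d := d) τ.ℓ) (Sg := τ.Sg) hN hAQ hBQ e he1 D
    rw [← hτ] at h1
    exact h1
  · intro D
    have h1 := hall_of_equiv (Γ := (mkTor ℓ hℓ ∅ G0).Γ) (Q := Qc (d := d) τ.ℓ) (Sg := τ.Sg) hN hBQ hAQ e.symm he2 D
    rw [← hτ] at h1
    exact h1

theorem cancel' (hd : Nonempty (Fin d)) (H : Subgroup (EE d ≃ᵢ EE d))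
    (htr : ∀ v : EE d, tr v ∈ H) {A B C : Set (EE d)} (hA : interior (closure A) = A)
    (hAb : Bornology.IsBounded A) (hB : interior (closure B) = B) (hBb : Bornology.IsBounded B)
    (hC : interior (closure C) = C) (hCb : Bornology.IsBounded C)
    (hAne : A.Nonempty) (hBne : B.Nonempty) {m : ℕ} (hm : 0 < m)
    {u v : Fin (m + 1) → (EE d ≃ᵢ EE d)} (huH : ∀ i, u i ∈ H) (hvH : ∀ i, v i ∈ H)
    (hu : Pairwise fun i j => Disjoint (u i '' (Fin.cons C (fun _ => A) : Fin (m + 1) → Set (EE d)) i)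
      (u j '' (Fin.cons C (fun _ => A) : Fin (m + 1) → Set (EE d)) j))
    (hv : Pairwise fun i j => Disjoint (v i '' (Fin.cons C (fun _ => B) : Fin (m + 1) → Set (EE d)) i)
      (v j '' (Fin.cons C (fun _ => B) : Fin (m + 1) → Set (EE d)) j))
    (h : ROEin H (interior (closure (⋃ i, u i '' (Fin.cons C (fun _ => A) : Fin (m + 1) → Set (EE d)) i)))
      (interior (closure (⋃ i, v i '' (Fin.cons C (fun _ => B) : Fin (m + 1) → Set (EE d)) i)))) :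
    ROEin H A B := by
  obtain ⟨n, P, g, hgH, hP, hPd, hgd, h1, h2⟩ := h
  have hAo : IsOpen A := hA ▸ isOpen_interior
  have hBo : IsOpen B := hB ▸ isOpen_interior
  have hCo : IsOpen C := hC ▸ isOpen_interior
  obtain ⟨ZA, hZA⟩ : ∃ Z : Fin (m + 1) → Set (EE d), Z = Fin.cons C (fun _ => A) := ⟨_, rfl⟩
  obtain ⟨ZB, hZB⟩ : ∃ Z : Fin (m + 1) → Set (EE d), Z = Fin.cons C (fun _ => B) := ⟨_, rfl⟩
  rw [← hZA] at hu h1
  rw [← hZB] at hv h2
  have hZAo : ∀ i, IsOpen (ZA i) := by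
    intro i
    rw [hZA]
    refine Fin.cases ?_ (fun i => ?_) i
    · exact hCo
    · exact hAo
  have hZBo : ∀ i, IsOpen (ZB i) := by
    intro i
    rw [hZB]
    refine Fin.cases ?_ (fun i => ?_) i
    · exact hCo
    · exact hBo
  have hPo : ∀ i, IsOpen (P i) := fun i => (hP i).1 ▸ isOpen_interior
  have hgPo : ∀ i, IsOpen (g i '' P i) := fun i => (g i).toHomeomorph.isOpenMap _ (hPo i)
  have huo : ∀ i, IsOpen (u i '' ZA i) := fun i => (u i).toHomeomorph.isOpenMap _ (hZAo i)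
  have hvo : ∀ i, IsOpen (v i '' ZB i) := fun i => (v i).toHomeomorph.isOpenMap _ (hZBo i)
  obtain ⟨ℓ, hℓ, hAQ, hBQ, hCQ⟩ : ∃ ℓ : ℝ, 0 < ℓ ∧ A ⊆ Qc (d := d) ℓ ∧ B ⊆ Qc (d := d) ℓ ∧
      C ⊆ Qc (d := d) ℓ := by
    obtain ⟨a, ha, ha2⟩ := ex_ell ((hAb.union hBb).union hCb)
    exact ⟨a, ha, fun x hx => ha2 (Or.inl (Or.inl hx)), fun x hx => ha2 (Or.inl (Or.inr hx)),
      fun x hx => ha2 (Or.inr hx)⟩
  let G0 : Set (EE d ≃ᵢ EE d) := Set.range u ∪ (Set.range v ∪ Set.range g)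
  have hG0 : G0.Countable :=
    (Set.countable_range _).union ((Set.countable_range _).union (Set.countable_range _))
  let τ := mkTor ℓ hℓ ∅ G0
  have hcou := mkTor_cou (ℓ := ℓ) (hℓ := hℓ) (S0 := ∅) hG0
  have huΓ : ∀ i, u i ∈ τ.Γ := fun i => mkTor_G0 (Or.inl ⟨i, rfl⟩)
  have hvΓ : ∀ i, v i ∈ τ.Γ := fun i => mkTor_G0 (Or.inr (Or.inl ⟨i, rfl⟩))
  have hgΓ : ∀ i, g i ∈ τ.Γ := fun i => mkTor_G0 (Or.inr (Or.inr ⟨i, rfl⟩))
  let 𝒟 : Set (Set (EE d)) := ({frontier (Qc (d := d) ℓ), frontier A, frontier B} : Set (Set (EE d))) ∪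
    (Set.range (fun i => frontier (P i)) ∪ (Set.range (fun i => frontier (g i '' P i)) ∪
      (Set.range (fun i => frontier (u i '' ZA i)) ∪ (Set.range (fun i => frontier (v i '' ZB i)) ∪
      Set.range (fun i : Fin d => {x : EE d | x i = -ℓ})))))
  have h𝒟c : 𝒟.Countable := by
    apply Set.Countable.union
    · exact (Set.toFinite _).countable
    · exact (Set.countable_range _).union ((Set.countable_range _).union
        ((Set.countable_range _).union ((Set.countable_range _).union (Set.countable_range _))))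
  have h𝒟 : ∀ D ∈ 𝒟, IsClosed D ∧ interior D = ∅ := by
    rintro D (hD | ⟨i, rfl⟩ | ⟨i, rfl⟩ | ⟨i, rfl⟩ | ⟨i, rfl⟩ | ⟨i, rfl⟩)
    · simp only [Set.mem_insert_iff, Set.mem_singleton_iff] at hD
      rcases hD with rfl | rfl | rfl
      · exact frontier_open_nd (Qc_open _)
      · exact frontier_open_nd hAo
      · exact frontier_open_nd hBo
    · exact frontier_open_nd (hPo i)
    · exact frontier_open_nd (hgPo i)
    · exact frontier_open_nd (huo i)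
    · exact frontier_open_nd (hvo i)
    · exact hyper_nd i _
  obtain ⟨x0, hx0, hgen, hfree⟩ := generic (Γ := τ.Γ) hcou h𝒟c h𝒟 (Qc_open (d := d) ℓ)
    ⟨0, fun i => by simpa using hℓ⟩
  have hz : Base τ x0 := ⟨hx0, fun γ hγ i => hgen γ hγ _
    (Or.inr (Or.inr (Or.inr (Or.inr (Or.inr ⟨i, rfl⟩))))), hfree⟩
  have gQ : ∀ γ ∈ τ.Γ, γ x0 ∉ frontier (Qc (d := d) ℓ) := fun γ hγ => hgen γ hγ _ (Or.inl (by simp))
  have gA : ∀ γ ∈ τ.Γ, γ x0 ∉ frontier A := fun γ hγ => hgen γ hγ _ (Or.inl (by simp))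
  have gB : ∀ γ ∈ τ.Γ, γ x0 ∉ frontier B := fun γ hγ => hgen γ hγ _ (Or.inl (by simp))
  have gP : ∀ γ ∈ τ.Γ, ∀ i, γ x0 ∉ frontier (P i) := fun γ hγ i => hgen γ hγ _ (Or.inr (Or.inl ⟨i, rfl⟩))
  have ggP : ∀ γ ∈ τ.Γ, ∀ i, γ x0 ∉ frontier (g i '' P i) := fun γ hγ i =>
    hgen γ hγ _ (Or.inr (Or.inr (Or.inl ⟨i, rfl⟩)))
  have gu : ∀ γ ∈ τ.Γ, ∀ i, γ x0 ∉ frontier (u i '' ZA i) := fun γ hγ i =>
    hgen γ hγ _ (Or.inr (Or.inr (Or.inr (Or.inl ⟨i, rfl⟩))))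
  have gv : ∀ γ ∈ τ.Γ, ∀ i, γ x0 ∉ frontier (v i '' ZB i) := fun γ hγ i =>
    hgen γ hγ _ (Or.inr (Or.inr (Or.inr (Or.inr (Or.inl ⟨i, rfl⟩)))))
  -- the classes
  have e1 := Phi_join hPo hPd h1 gP
  have e2 := Phi_join hgPo hgd h2 ggP
  have e3 := Phi_join huo hu rfl gu
  have e4 := Phi_join hvo hv rfl gv
  rw [Finset.sum_congr rfl fun i _ => Phi_move (x0 := x0) (hgΓ i) (P i), ← e1] at e2
  rw [Finset.sum_congr rfl fun i _ => Phi_move (x0 := x0) (huΓ i) (ZA i)] at e3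
  rw [Finset.sum_congr rfl fun i _ => Phi_move (x0 := x0) (hvΓ i) (ZB i)] at e4
  have e5 : m • cl τ.Γ (Tg τ.Γ x0 A) + cl τ.Γ (Tg τ.Γ x0 C) =
      m • cl τ.Γ (Tg τ.Γ x0 B) + cl τ.Γ (Tg τ.Γ x0 C) := by
    have e6 := e3.symm.trans (e2.symm.trans e4)
    rw [hZA, hZB, Fin.sum_univ_succ, Fin.sum_univ_succ] at e6
    simp only [Fin.cons_zero, Fin.cons_succ, Finset.sum_const, Finset.card_univ,
      Fintype.card_fin] at e6
    rw [add_comm, e6, add_comm]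
  have hab : ∀ {Z : Set (EE d)}, IsOpen Z → Z.Nonempty → Z ⊆ Qc (d := d) ℓ →
      ∃ (k : ℕ) (e : Q τ.Γ), k • cl τ.Γ (Tg τ.Γ x0 Z) = cl τ.Γ (Tg τ.Γ x0 C) + e := by
    intro Z hZo hZne hZQ
    obtain ⟨ρ, hρ⟩ := synd hz hZo hZne hZQ
    obtain ⟨e, he⟩ := absorb τ.Γ (A := Tg τ.Γ x0 Z) (C := Tg τ.Γ x0 C) (Wd τ.Sg ρ)
      (wd_mem τ.sub ρ) (by
        intro γ hγ
        obtain ⟨δ, hδ, hδZ⟩ := hρ γ ⟨hγ.1, hCQ hγ.2⟩
        obtain ⟨w, hw, rfl⟩ := ballx_wd τ.one x0 ρ γ δ hδ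
        exact ⟨w, hw, τ.Γ.mul_mem (wd_mem τ.sub ρ w hw) hγ.1, hδZ⟩)
    exact ⟨_, e, he⟩
  obtain ⟨ka, ea, hka⟩ := hab hAo hAne hAQ
  obtain ⟨kb, eb, hkb⟩ := hab hBo hBne hBQ
  obtain ⟨m', rfl⟩ : ∃ m', m = m' + 1 := ⟨m - 1, by omega⟩
  have f1 : (ka + kb + 1) • ((m' + 1) • cl τ.Γ (Tg τ.Γ x0 A)) = cl τ.Γ (Tg τ.Γ x0 C) +
      (ea + ((kb + 1) * (m' + 1) + ka * m') • cl τ.Γ (Tg τ.Γ x0 A)) := by
    rw [← add_assoc, ← hka, ← mul_nsmul', ← add_nsmul]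
    congr 1
    ring
  have f2 : (ka + kb + 1) • ((m' + 1) • cl τ.Γ (Tg τ.Γ x0 B)) = cl τ.Γ (Tg τ.Γ x0 C) +
      (eb + ((ka + 1) * (m' + 1) + kb * m') • cl τ.Γ (Tg τ.Γ x0 B)) := by
    rw [← add_assoc, ← hkb, ← mul_nsmul', ← add_nsmul]
    congr 1
    ring
  have f3 := sep e5 f1 f2
  rw [← mul_nsmul', ← mul_nsmul'] at f3
  refine (roe_of_class' hd hA hAb hB hAne hBne hℓ hAQ hBQ hcou hz gQ gA gB
    (by positivity) f3).mono ?_
  exact mkTor_le hℓ H htr (by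
    rintro _ (⟨i, rfl⟩ | ⟨i, rfl⟩ | ⟨i, rfl⟩)
    · exact huH i
    · exact hvH i
    · exact hgH i)

end Pool.Agent.Y779.RO
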