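import Pool.Agent.Y779.RO.Core

/-!
# Cancellation for regular open sets: the theorem
-/

set_option autoImplicit false
set_option linter.all false

namespace Pool.Agent.Y779.RO

open Pool.Agent.H382RO Finset Classical Topology

variable {d : ℕ}

theorem base_congr {τ τ' : TorSys d} (hℓ : τ'.ℓ = τ.ℓ) (hΓ : ∀ γ, γ ∈ τ'.Γ → γ ∈ τ.Γ) {x0 : EE d}
    (h : Base τ x0) : Base τ' x0 :=
  ⟨by rw [hℓ]; exact h.hQ, fun γ hγ i => by rw [hℓ]; exact h.gen γ (hΓ γ hγ) i,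
    fun γ hγ h2 => h.free γ (hΓ γ hγ) h2⟩

/-- from an equality of classes to the equidecomposition -/
theorem roe_of_class (hd : Nonempty (Fin d)) {A B : Set (EE d)} (hA : interior (closure A) = A)
    (hAb : Bornology.IsBounded A) (hB : interior (closure B) = B)
    (hAne : A.Nonempty) (hBne : B.Nonempty) {ℓ : ℝ} (hℓ : 0 < ℓ) {G0 : Set (EE d ≃ᵢ EE d)}
    (hAQ : A ⊆ Qc (d := d) ℓ) (hBQ : B ⊆ Qc (d := d) ℓ)
    (hcou : ((mkTor ℓ hℓ ∅ G0).Γ : Set (EE d ≃ᵢ EE d)).Countable) {x0 : EE d}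
    (hz : Base (mkTor ℓ hℓ ∅ G0) x0)
    (gQ : ∀ γ ∈ (mkTor ℓ hℓ ∅ G0).Γ, γ x0 ∉ frontier (Qc (d := d) ℓ))
    (gA : ∀ γ ∈ (mkTor ℓ hℓ ∅ G0).Γ, γ x0 ∉ frontier A)
    (gB : ∀ γ ∈ (mkTor ℓ hℓ ∅ G0).Γ, γ x0 ∉ frontier B) {N : ℕ} (hN : 0 < N)
    (h : N • cl (mkTor ℓ hℓ ∅ G0).Γ (Tg (mkTor ℓ hℓ ∅ G0).Γ x0 A) =
      N • cl (mkTor ℓ hℓ ∅ G0).Γ (Tg (mkTor ℓ hℓ ∅ G0).Γ x0 B)) : ROE A B := by
  obtain ⟨Γ0, hΓ0⟩ : ∃ Γ0 : Subgroup (EE d ≃ᵢ EE d), Γ0 = (mkTor ℓ hℓ ∅ G0).Γ := ⟨_, rfl⟩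
  obtain ⟨e, S, hS, he⟩ := exists_equiv _ h
  let τ := mkTor ℓ hℓ S ((mkTor ℓ hℓ ∅ G0).Γ : Set (EE d ≃ᵢ EE d))
  have hτ : τ.Γ = (mkTor ℓ hℓ ∅ G0).Γ := by
    apply le_antisymm
    · show Subgroup.closure _ ≤ _
      rw [Subgroup.closure_le]
      rintro g (hg | hg | ⟨i, rfl⟩)
      · rcases Finset.mem_union.mp (Finset.mem_coe.mp hg) with h1 | h1
        · rcases Finset.mem_insert.mp h1 with rfl | h2
          · exact Subgroup.one_mem _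
          · rcases Finset.mem_union.mp h2 with h3 | h3
            · exact hS g h3
            · refine (mkTor ℓ hℓ ∅ G0).sub g ?_
              exact Finset.mem_union_left _ (Finset.mem_insert_of_mem (Finset.mem_union_right _ h3))
        · obtain ⟨g', h2, rfl⟩ := Finset.mem_image.mp h1
          rcases Finset.mem_insert.mp h2 with rfl | h2
          · exact Subgroup.inv_mem _ (Subgroup.one_mem _)
          · rcases Finset.mem_union.mp h2 with h3 | h3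
            · exact Subgroup.inv_mem _ (hS g' h3)
            · refine Subgroup.inv_mem _ ((mkTor ℓ hℓ ∅ G0).sub g' ?_)
              exact Finset.mem_union_left _ (Finset.mem_insert_of_mem (Finset.mem_union_right _ h3))
      · exact hg
      · exact (mkTor ℓ hℓ ∅ G0).tl i
    · intro g hg
      exact mkTor_G0 hg
  have hmem : ∀ γ, γ ∈ τ.Γ ↔ γ ∈ (mkTor ℓ hℓ ∅ G0).Γ := fun γ => by rw [hτ]
  have hz' : Base τ x0 :=
    base_congr (τ := mkTor ℓ hℓ ∅ G0) (τ' := τ) rfl (fun γ hγ => (hmem γ).1 hγ) hz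
  have he1 : ∀ q, ∃ σ ∈ τ.Sg, ((e q).2 : EE d ≃ᵢ EE d) = σ * (q.2 : EE d ≃ᵢ EE d) := by
    intro q
    obtain ⟨σ, hσ, h1⟩ := he q
    exact ⟨σ, mkTor_S0 hσ, h1⟩
  have he2 : ∀ q, ∃ σ ∈ τ.Sg, ((e.symm q).2 : EE d ≃ᵢ EE d) = σ * (q.2 : EE d ≃ᵢ EE d) := by
    intro q
    obtain ⟨σ, hσ, h1⟩ := he1 (e.symm q)
    rw [e.apply_symm_apply] at h1
    refine ⟨σ⁻¹, τ.inv σ hσ, ?_⟩
    rw [h1]
    group
  refine finish hd hA hAb hB hAne hBne τ hAQ hBQ (by rw [hτ]; exact hcou) hz'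
    (fun γ hγ => gQ γ ((hmem γ).1 hγ)) (fun γ hγ => gA γ ((hmem γ).1 hγ))
    (fun γ hγ => gB γ ((hmem γ).1 hγ)) ?_ ?_
  · intro D
    have h1 := hall_of_equiv (Γ := (mkTor ℓ hℓ ∅ G0).Γ) (Q := Qc (d := d) τ.ℓ) (Sg := τ.Sg) hN hAQ hBQ e he1 D
    rw [← hτ] at h1
    exact h1
  · intro D
    have h1 := hall_of_equiv (Γ := (mkTor ℓ hℓ ∅ G0).Γ) (Q := Qc (d := d) τ.ℓ) (Sg := τ.Sg) hN hBQ hAQ e.symm he2 D
    rw [← hτ] at h1
    exact h1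

theorem cancel (hd : Nonempty (Fin d)) {A B C : Set (EE d)} (hA : interior (closure A) = A)
    (hAb : Bornology.IsBounded A) (hB : interior (closure B) = B) (hBb : Bornology.IsBounded B)
    (hC : interior (closure C) = C) (hCb : Bornology.IsBounded C)
    (hAne : A.Nonempty) (hBne : B.Nonempty) {m : ℕ} (hm : 0 < m)
    {u v : Fin (m + 1) → (EE d ≃ᵢ EE d)}
    (hu : Pairwise fun i j => Disjoint (u i '' (Fin.cons C (fun _ => A) : Fin (m + 1) → Set (EE d)) i)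
      (u j '' (Fin.cons C (fun _ => A) : Fin (m + 1) → Set (EE d)) j))
    (hv : Pairwise fun i j => Disjoint (v i '' (Fin.cons C (fun _ => B) : Fin (m + 1) → Set (EE d)) i)
      (v j '' (Fin.cons C (fun _ => B) : Fin (m + 1) → Set (EE d)) j))
    (h : ROE (interior (closure (⋃ i, u i '' (Fin.cons C (fun _ => A) : Fin (m + 1) → Set (EE d)) i)))
      (interior (closure (⋃ i, v i '' (Fin.cons C (fun _ => B) : Fin (m + 1) → Set (EE d)) i)))) :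
    ROE A B := by
  obtain ⟨n, P, g, hP, hPd, hgd, h1, h2⟩ := h
  have hAo : IsOpen A := hA ▸ isOpen_interior
  have hBo : IsOpen B := hB ▸ isOpen_interior
  have hCo : IsOpen C := hC ▸ isOpen_interior
  obtain ⟨ZA, hZA⟩ : ∃ Z : Fin (m + 1) → Set (EE d), Z = Fin.cons C (fun _ => A) := ⟨_, rfl⟩
  obtain ⟨ZB, hZB⟩ : ∃ Z : Fin (m + 1) → Set (EE d), Z = Fin.cons C (fun _ => B) := ⟨_, rfl⟩
  rw [← hZA] at hu h1
  rw [← hZB] at hv h2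
  have hZAo : ∀ i, IsOpen (ZA i) := by
    intro i
    rw [hZA]
    refine Fin.cases ?_ (fun i => ?_) i
    · exact hCo
    · exact hAo
  have hZBo : ∀ i, IsOpen (ZB i) := by
    intro i
    rw [hZB]
    refine Fin.cases ?_ (fun i => ?_) i
    · exact hCo
    · exact hBo
  have hPo : ∀ i, IsOpen (P i) := fun i => (hP i).1 ▸ isOpen_interior
  have hgPo : ∀ i, IsOpen (g i '' P i) := fun i => (g i).toHomeomorph.isOpenMap _ (hPo i)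
  have huo : ∀ i, IsOpen (u i '' ZA i) := fun i => (u i).toHomeomorph.isOpenMap _ (hZAo i)
  have hvo : ∀ i, IsOpen (v i '' ZB i) := fun i => (v i).toHomeomorph.isOpenMap _ (hZBo i)
  obtain ⟨ℓ, hℓ, hAQ, hBQ, hCQ⟩ : ∃ ℓ : ℝ, 0 < ℓ ∧ A ⊆ Qc (d := d) ℓ ∧ B ⊆ Qc (d := d) ℓ ∧
      C ⊆ Qc (d := d) ℓ := by
    obtain ⟨a, ha, ha2⟩ := ex_ell ((hAb.union hBb).union hCb)
    exact ⟨a, ha, fun x hx => ha2 (Or.inl (Or.inl hx)), fun x hx => ha2 (Or.inl (Or.inr hx)),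
      fun x hx => ha2 (Or.inr hx)⟩
  let G0 : Set (EE d ≃ᵢ EE d) := Set.range u ∪ (Set.range v ∪ Set.range g)
  have hG0 : G0.Countable :=
    (Set.countable_range _).union ((Set.countable_range _).union (Set.countable_range _))
  let τ := mkTor ℓ hℓ ∅ G0
  have hcou := mkTor_cou (ℓ := ℓ) (hℓ := hℓ) (S0 := ∅) hG0
  have huΓ : ∀ i, u i ∈ τ.Γ := fun i => mkTor_G0 (Or.inl ⟨i, rfl⟩)
  have hvΓ : ∀ i, v i ∈ τ.Γ := fun i => mkTor_G0 (Or.inr (Or.inl ⟨i, rfl⟩))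
  have hgΓ : ∀ i, g i ∈ τ.Γ := fun i => mkTor_G0 (Or.inr (Or.inr ⟨i, rfl⟩))
  let 𝒟 : Set (Set (EE d)) := ({frontier (Qc (d := d) ℓ), frontier A, frontier B} : Set (Set (EE d))) ∪
    (Set.range (fun i => frontier (P i)) ∪ (Set.range (fun i => frontier (g i '' P i)) ∪
      (Set.range (fun i => frontier (u i '' ZA i)) ∪ (Set.range (fun i => frontier (v i '' ZB i)) ∪
      Set.range (fun i : Fin d => {x : EE d | x i = -ℓ})))))
  have h𝒟c : 𝒟.Countable := by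
    apply Set.Countable.union
    · exact (Set.toFinite _).countable
    · exact (Set.countable_range _).union ((Set.countable_range _).union
        ((Set.countable_range _).union ((Set.countable_range _).union (Set.countable_range _))))
  have h𝒟 : ∀ D ∈ 𝒟, IsClosed D ∧ interior D = ∅ := by
    rintro D (hD | ⟨i, rfl⟩ | ⟨i, rfl⟩ | ⟨i, rfl⟩ | ⟨i, rfl⟩ | ⟨i, rfl⟩)
    · simp only [Set.mem_insert_iff, Set.mem_singleton_iff] at hD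
      rcases hD with rfl | rfl | rfl
      · exact frontier_open_nd (Qc_open _)
      · exact frontier_open_nd hAo
      · exact frontier_open_nd hBo
    · exact frontier_open_nd (hPo i)
    · exact frontier_open_nd (hgPo i)
    · exact frontier_open_nd (huo i)
    · exact frontier_open_nd (hvo i)
    · exact hyper_nd i _
  obtain ⟨x0, hx0, hgen, hfree⟩ := generic (Γ := τ.Γ) hcou h𝒟c h𝒟 (Qc_open (d := d) ℓ)
    ⟨0, fun i => by simpa using hℓ⟩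
  have hz : Base τ x0 := ⟨hx0, fun γ hγ i => hgen γ hγ _
    (Or.inr (Or.inr (Or.inr (Or.inr (Or.inr ⟨i, rfl⟩))))), hfree⟩
  have gQ : ∀ γ ∈ τ.Γ, γ x0 ∉ frontier (Qc (d := d) ℓ) := fun γ hγ => hgen γ hγ _ (Or.inl (by simp))
  have gA : ∀ γ ∈ τ.Γ, γ x0 ∉ frontier A := fun γ hγ => hgen γ hγ _ (Or.inl (by simp))
  have gB : ∀ γ ∈ τ.Γ, γ x0 ∉ frontier B := fun γ hγ => hgen γ hγ _ (Or.inl (by simp))
  have gP : ∀ γ ∈ τ.Γ, ∀ i, γ x0 ∉ frontier (P i) := fun γ hγ i => hgen γ hγ _ (Or.inr (Or.inl ⟨i, rfl⟩))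
  have ggP : ∀ γ ∈ τ.Γ, ∀ i, γ x0 ∉ frontier (g i '' P i) := fun γ hγ i =>
    hgen γ hγ _ (Or.inr (Or.inr (Or.inl ⟨i, rfl⟩)))
  have gu : ∀ γ ∈ τ.Γ, ∀ i, γ x0 ∉ frontier (u i '' ZA i) := fun γ hγ i =>
    hgen γ hγ _ (Or.inr (Or.inr (Or.inr (Or.inl ⟨i, rfl⟩))))
  have gv : ∀ γ ∈ τ.Γ, ∀ i, γ x0 ∉ frontier (v i '' ZB i) := fun γ hγ i =>
    hgen γ hγ _ (Or.inr (Or.inr (Or.inr (Or.inr (Or.inl ⟨i, rfl⟩)))))
  -- the classes
  have e1 := Phi_join hPo hPd h1 gP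
  have e2 := Phi_join hgPo hgd h2 ggP
  have e3 := Phi_join huo hu rfl gu
  have e4 := Phi_join hvo hv rfl gv
  rw [Finset.sum_congr rfl fun i _ => Phi_move (x0 := x0) (hgΓ i) (P i), ← e1] at e2
  rw [Finset.sum_congr rfl fun i _ => Phi_move (x0 := x0) (huΓ i) (ZA i)] at e3
  rw [Finset.sum_congr rfl fun i _ => Phi_move (x0 := x0) (hvΓ i) (ZB i)] at e4
  have e5 : m • cl τ.Γ (Tg τ.Γ x0 A) + cl τ.Γ (Tg τ.Γ x0 C) =
      m • cl τ.Γ (Tg τ.Γ x0 B) + cl τ.Γ (Tg τ.Γ x0 C) := by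
    have e6 := e3.symm.trans (e2.symm.trans e4)
    rw [hZA, hZB, Fin.sum_univ_succ, Fin.sum_univ_succ] at e6
    simp only [Fin.cons_zero, Fin.cons_succ, Finset.sum_const, Finset.card_univ,
      Fintype.card_fin] at e6
    rw [add_comm, e6, add_comm]
  have hab : ∀ {Z : Set (EE d)}, IsOpen Z → Z.Nonempty → Z ⊆ Qc (d := d) ℓ →
      ∃ (k : ℕ) (e : Q τ.Γ), k • cl τ.Γ (Tg τ.Γ x0 Z) = cl τ.Γ (Tg τ.Γ x0 C) + e := by
    intro Z hZo hZne hZQ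
    obtain ⟨ρ, hρ⟩ := synd hz hZo hZne hZQ
    obtain ⟨e, he⟩ := absorb τ.Γ (A := Tg τ.Γ x0 Z) (C := Tg τ.Γ x0 C) (Wd τ.Sg ρ)
      (wd_mem τ.sub ρ) (by
        intro γ hγ
        obtain ⟨δ, hδ, hδZ⟩ := hρ γ ⟨hγ.1, hCQ hγ.2⟩
        obtain ⟨w, hw, rfl⟩ := ballx_wd τ.one x0 ρ γ δ hδ
        exact ⟨w, hw, τ.Γ.mul_mem (wd_mem τ.sub ρ w hw) hγ.1, hδZ⟩)
    exact ⟨_, e, he⟩
  obtain ⟨ka, ea, hka⟩ := hab hAo hAne hAQ
  obtain ⟨kb, eb, hkb⟩ := hab hBo hBne hBQ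
  obtain ⟨m', rfl⟩ : ∃ m', m = m' + 1 := ⟨m - 1, by omega⟩
  have f1 : (ka + kb + 1) • ((m' + 1) • cl τ.Γ (Tg τ.Γ x0 A)) = cl τ.Γ (Tg τ.Γ x0 C) +
      (ea + ((kb + 1) * (m' + 1) + ka * m') • cl τ.Γ (Tg τ.Γ x0 A)) := by
    rw [← add_assoc, ← hka, ← mul_nsmul', ← add_nsmul]
    congr 1
    ring
  have f2 : (ka + kb + 1) • ((m' + 1) • cl τ.Γ (Tg τ.Γ x0 B)) = cl τ.Γ (Tg τ.Γ x0 C) +
      (eb + ((ka + 1) * (m' + 1) + kb * m') • cl τ.Γ (Tg τ.Γ x0 B)) := by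
    rw [← add_assoc, ← hkb, ← mul_nsmul', ← add_nsmul]
    congr 1
    ring
  have f3 := sep e5 f1 f2
  rw [← mul_nsmul', ← mul_nsmul'] at f3
  exact roe_of_class hd hA hAb hB hAne hBne hℓ hAQ hBQ hcou hz gQ gA gB
    (by positivity) f3

end Pool.Agent.Y779.RO
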