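import Pool.Agent.Y779.RO.Grp

/-!
# No absorption for groups of isometries of subexponential growth
-/

set_option autoImplicit false
set_option linter.all false

namespace Pool.Agent.Y779.RO

open Pool.Agent.H382RO Finset Classical Topology Pointwise

variable {d : ℕ}

/-- every finite subset of the group `H` has subexponential growth -/
def Slow {G : Type} [Group G] (H : Subgroup G) : Prop :=
  ∀ S : Finset G, (∀ s ∈ S, s ∈ H) → ∀ c : ℝ, 1 < c → ∃ N : ℕ, ((S ^ N).card : ℝ) < c ^ N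

theorem blowup {G : Type} [Group G] {H : Subgroup G} (hslow : Slow H) {TB TC : Set G}
    (h1 : (1 : G) ∈ TC) {m : ℕ} (hm : 0 < m) (e : TC ≃ (Fin m × TB) ⊕ TC) {S : Finset G}
    (hS : ∀ σ ∈ S, σ ∈ H)
    (he : ∀ a : TC, ∃ σ ∈ S, (Sum.elim (fun q : Fin m × TB => (q.2 : G)) Subtype.val (e a)) = σ * (a : G))
    {F : Finset G} (hF : ∀ σ ∈ F, σ ∈ H) (hsyn : ∀ γ ∈ TC, ∃ σ ∈ F, σ * γ ∈ TB) : False := by
  let S' : Finset G := insert 1 (S.image (fun s => s⁻¹) ∪ F)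
  have hS'H : ∀ s ∈ S', s ∈ H := by
    intro s hs
    rcases Finset.mem_insert.mp hs with rfl | hs
    · exact H.one_mem
    · rcases Finset.mem_union.mp hs with hs | hs
      · obtain ⟨t, ht, rfl⟩ := Finset.mem_image.mp hs
        exact H.inv_mem (hS t ht)
      · exact hF s hs
  let a : ℕ → ℕ := fun N => Nat.card {c : TC // (c : G) ∈ S' ^ N}
  let b : ℕ → ℕ := fun N => Nat.card {c : TB // (c : G) ∈ S' ^ N}
  have fin : ∀ (T : Set G) (N : ℕ), Finite {c : T // (c : G) ∈ S' ^ N} := by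
    intro T N
    apply Finite.of_injective (β := (S' ^ N : Finset G)) (fun c => ⟨(c.1 : G), c.2⟩)
    intro x y hxy
    exact Subtype.ext (Subtype.ext (congrArg (fun z : (S' ^ N : Finset G) => (z : G)) hxy))
  have ale : ∀ N, a N ≤ (S' ^ N).card := by
    intro N
    have := Nat.card_le_card_of_injective (β := (S' ^ N : Finset G))
      (fun c : {c : TC // (c : G) ∈ S' ^ N} => (⟨(c.1 : G), c.2⟩ : (S' ^ N : Finset G)))
      (fun x y hxy => Subtype.ext (Subtype.ext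
        (congrArg (fun z : (S' ^ N : Finset G) => (z : G)) hxy)))
    simpa using this
  have mono : ∀ N, ∀ s ∈ S', ∀ x ∈ S' ^ N, s * x ∈ S' ^ (N + 1) := by
    intro N s hs x hx
    rw [pow_succ']
    exact Finset.mul_mem_mul hs hx
  have g1 : ∀ N, b N + a N ≤ a (N + 1) := by
    intro N
    have key : ∀ q : (Fin m × TB) ⊕ TC, (Sum.elim (fun q : Fin m × TB => (q.2 : G)) Subtype.val q) ∈ S' ^ N →
        ((e.symm q : TC) : G) ∈ S' ^ (N + 1) := by
      intro q hq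
      obtain ⟨σ, hσ, h2⟩ := he (e.symm q)
      rw [e.apply_symm_apply] at h2
      have h3 : ((e.symm q : TC) : G) = σ⁻¹ * (Sum.elim (fun q : Fin m × TB => (q.2 : G)) Subtype.val q) := by
        rw [h2]; group
      rw [h3]
      exact mono N _ (Finset.mem_insert_of_mem (Finset.mem_union_left _ (Finset.mem_image_of_mem _ hσ))) _ hq
    have f1 := fin TB N
    have f2 := fin TC N
    have f3 := fin TC (N + 1)
    show Nat.card _ + Nat.card _ ≤ Nat.card _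
    rw [← Nat.card_sum]
    apply Nat.card_le_card_of_injective (fun z : {c : TB // (c : G) ∈ S' ^ N} ⊕ {c : TC // (c : G) ∈ S' ^ N} =>
      (match z with
        | Sum.inl x => ⟨e.symm (Sum.inl (⟨0, hm⟩, x.1)), key _ x.2⟩
        | Sum.inr x => ⟨e.symm (Sum.inr x.1), key _ x.2⟩ : {c : TC // (c : G) ∈ S' ^ (N + 1)}))
    rintro (x | x) (y | y) hxy
    · have h4 := e.symm.injective (congrArg Subtype.val hxy)
      have h5 := Sum.inl.inj h4
      exact congrArg Sum.inl (Subtype.ext (Prod.mk.inj h5).2)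
    · have h4 := e.symm.injective (congrArg Subtype.val hxy)
      exact absurd h4 (by simp)
    · have h4 := e.symm.injective (congrArg Subtype.val hxy)
      exact absurd h4 (by simp)
    · have h4 := e.symm.injective (congrArg Subtype.val hxy)
      exact congrArg Sum.inr (Subtype.ext (Sum.inr.inj h4))
  have g2 : ∀ N, a N ≤ F.card * b (N + 1) := by
    intro N
    have f1 := fin TB (N + 1)
    choose! s hs1 hs2 using hsyn
    have := Nat.card_le_card_of_injective (β := F × {c : TB // (c : G) ∈ S' ^ (N + 1)})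
      (fun x : {c : TC // (c : G) ∈ S' ^ N} => (⟨s x.1, hs1 _ x.1.2⟩, ⟨⟨s x.1 * x.1, hs2 _ x.1.2⟩,
        mono N _ (Finset.mem_insert_of_mem (Finset.mem_union_right _ (hs1 _ x.1.2))) _ x.2⟩))
      (by
        intro x y hxy
        have h4 : s x.1 = s y.1 := congrArg (fun z => (z.1 : G)) hxy
        have h5 : s x.1 * (x.1 : G) = s y.1 * y.1 := congrArg (fun z => ((z.2.1 : TB) : G)) hxy
        rw [h4] at h5
        exact Subtype.ext (Subtype.ext (mul_left_cancel h5)))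
    rw [Nat.card_prod] at this
    simpa using this
  have ha0 : 1 ≤ a 0 := by
    have f2 := fin TC 0
    have hne : Nonempty {c : TC // (c : G) ∈ S' ^ 0} := ⟨⟨⟨1, h1⟩, by simp⟩⟩
    exact Nat.card_pos
  have hk : 0 < F.card := by
    obtain ⟨σ, hσ, -⟩ := hsyn 1 h1
    exact Finset.card_pos.mpr ⟨σ, hσ⟩
  have g3 : ∀ N, (F.card + 1) * a N ≤ F.card * a (N + 2) := by
    intro N
    have h2 := g1 N
    have h3 : b (N + 1) + a (N + 1) ≤ a (N + 2) := g1 (N + 1)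
    have h4 := g2 N
    have h5 : F.card * a (N + 1) + F.card * b (N + 1) ≤ F.card * a (N + 2) := by
      rw [← mul_add]
      exact Nat.mul_le_mul_left _ (by omega)
    have h6 : F.card * a N ≤ F.card * a (N + 1) := Nat.mul_le_mul_left _ (by omega)
    nlinarith
  set c : ℝ := (F.card + 1) / F.card with hc
  have hkR : (0 : ℝ) < F.card := by exact_mod_cast hk
  have hc1 : 1 < c := by
    rw [hc, lt_div_iff₀ hkR]
    linarith
  have g4 : ∀ N : ℕ, c ^ N ≤ a (2 * N) := by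
    intro N
    induction N with
    | zero => simpa using ha0
    | succ N ih =>
      have h2 : ((F.card + 1 : ℕ) : ℝ) * (a (2 * N) : ℝ) ≤ (F.card : ℝ) * (a (2 * N + 2) : ℝ) := by
        exact_mod_cast g3 (2 * N)
      have h3 : c * (a (2 * N) : ℝ) ≤ a (2 * N + 2) := by
        rw [hc, div_mul_eq_mul_div, div_le_iff₀ hkR]
        push_cast at h2
        linarith
      calc c ^ (N + 1) = c * c ^ N := by ring
        _ ≤ c * a (2 * N) := mul_le_mul_of_nonneg_left ih (by linarith)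
        _ ≤ _ := h3
  have hS2 : ∀ s ∈ S' ^ 2, s ∈ H := by
    intro s hs
    rw [pow_two] at hs
    obtain ⟨x, hx, y, hy, rfl⟩ := Finset.mem_mul.mp hs
    exact H.mul_mem (hS'H x hx) (hS'H y hy)
  obtain ⟨N, hN⟩ := hslow (S' ^ 2) hS2 c hc1
  rw [← pow_mul] at hN
  have h7 : ((a (2 * N) : ℕ) : ℝ) ≤ ((S' ^ (2 * N)).card : ℝ) := by exact_mod_cast ale (2 * N)
  linarith [g4 N]

theorem no_absorb (hd : Nonempty (Fin d)) (H : Subgroup (EE d ≃ᵢ EE d))
    (htr : ∀ v : EE d, tr v ∈ H) (hslow : Slow H) {A B C : Set (EE d)} (hA0 : A = ∅)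
    (hA : interior (closure A) = A)
    (hAb : Bornology.IsBounded A) (hB : interior (closure B) = B) (hBb : Bornology.IsBounded B)
    (hC : interior (closure C) = C) (hCb : Bornology.IsBounded C)
    (hBne : B.Nonempty) (hCne : C.Nonempty) {m : ℕ} (hm : 0 < m)
    {u v : Fin (m + 1) → (EE d ≃ᵢ EE d)} (huH : ∀ i, u i ∈ H) (hvH : ∀ i, v i ∈ H)
    (hu : Pairwise fun i j => Disjoint (u i '' (Fin.cons C (fun _ => A) : Fin (m + 1) → Set (EE d)) i)
      (u j '' (Fin.cons C (fun _ => A) : Fin (m + 1) → Set (EE d)) j))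
    (hv : Pairwise fun i j => Disjoint (v i '' (Fin.cons C (fun _ => B) : Fin (m + 1) → Set (EE d)) i)
      (v j '' (Fin.cons C (fun _ => B) : Fin (m + 1) → Set (EE d)) j))
    (h : ROEin H (interior (closure (⋃ i, u i '' (Fin.cons C (fun _ => A) : Fin (m + 1) → Set (EE d)) i)))
      (interior (closure (⋃ i, v i '' (Fin.cons C (fun _ => B) : Fin (m + 1) → Set (EE d)) i)))) :
    False := by
  obtain ⟨n, P, g, hgH, hP, hPd, hgd, h1, h2⟩ := h
  have hAo : IsOpen A := hA ▸ isOpen_interior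
  have hBo : IsOpen B := hB ▸ isOpen_interior
  have hCo : IsOpen C := hC ▸ isOpen_interior
  obtain ⟨ZA, hZA⟩ : ∃ Z : Fin (m + 1) → Set (EE d), Z = Fin.cons C (fun _ => A) := ⟨_, rfl⟩
  obtain ⟨ZB, hZB⟩ : ∃ Z : Fin (m + 1) → Set (EE d), Z = Fin.cons C (fun _ => B) := ⟨_, rfl⟩
  rw [← hZA] at hu h1
  rw [← hZB] at hv h2
  have hZAo : ∀ i, IsOpen (ZA i) := by
    intro i
    rw [hZA]
    refine Fin.cases ?_ (fun i => ?_) i
    · exact hCo
    · exact hAo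
  have hZBo : ∀ i, IsOpen (ZB i) := by
    intro i
    rw [hZB]
    refine Fin.cases ?_ (fun i => ?_) i
    · exact hCo
    · exact hBo
  have hPo : ∀ i, IsOpen (P i) := fun i => (hP i).1 ▸ isOpen_interior
  have hgPo : ∀ i, IsOpen (g i '' P i) := fun i => (g i).toHomeomorph.isOpenMap _ (hPo i)
  have huo : ∀ i, IsOpen (u i '' ZA i) := fun i => (u i).toHomeomorph.isOpenMap _ (hZAo i)
  have hvo : ∀ i, IsOpen (v i '' ZB i) := fun i => (v i).toHomeomorph.isOpenMap _ (hZBo i)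
  obtain ⟨ℓ, hℓ, hAQ, hBQ, hCQ⟩ : ∃ ℓ : ℝ, 0 < ℓ ∧ A ⊆ Qc (d := d) ℓ ∧ B ⊆ Qc (d := d) ℓ ∧
      C ⊆ Qc (d := d) ℓ := by
    obtain ⟨a, ha, ha2⟩ := ex_ell ((hAb.union hBb).union hCb)
    exact ⟨a, ha, fun x hx => ha2 (Or.inl (Or.inl hx)), fun x hx => ha2 (Or.inl (Or.inr hx)),
      fun x hx => ha2 (Or.inr hx)⟩
  let G0 : Set (EE d ≃ᵢ EE d) := Set.range u ∪ (Set.range v ∪ Set.range g)
  have hG0 : G0.Countable :=
    (Set.countable_range _).union ((Set.countable_range _).union (Set.countable_range _))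
  let τ := mkTor ℓ hℓ ∅ G0
  have hcou := mkTor_cou (ℓ := ℓ) (hℓ := hℓ) (S0 := ∅) hG0
  have huΓ : ∀ i, u i ∈ τ.Γ := fun i => mkTor_G0 (Or.inl ⟨i, rfl⟩)
  have hvΓ : ∀ i, v i ∈ τ.Γ := fun i => mkTor_G0 (Or.inr (Or.inl ⟨i, rfl⟩))
  have hgΓ : ∀ i, g i ∈ τ.Γ := fun i => mkTor_G0 (Or.inr (Or.inr ⟨i, rfl⟩))
  let 𝒟 : Set (Set (EE d)) := ({frontier (Qc (d := d) ℓ), frontier A, frontier B} : Set (Set (EE d))) ∪
    (Set.range (fun i => frontier (P i)) ∪ (Set.range (fun i => frontier (g i '' P i)) ∪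
      (Set.range (fun i => frontier (u i '' ZA i)) ∪ (Set.range (fun i => frontier (v i '' ZB i)) ∪
      Set.range (fun i : Fin d => {x : EE d | x i = -ℓ})))))
  have h𝒟c : 𝒟.Countable := by
    apply Set.Countable.union
    · exact (Set.toFinite _).countable
    · exact (Set.countable_range _).union ((Set.countable_range _).union
        ((Set.countable_range _).union ((Set.countable_range _).union (Set.countable_range _))))
  have h𝒟 : ∀ D ∈ 𝒟, IsClosed D ∧ interior D = ∅ := by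
    rintro D (hD | ⟨i, rfl⟩ | ⟨i, rfl⟩ | ⟨i, rfl⟩ | ⟨i, rfl⟩ | ⟨i, rfl⟩)
    · simp only [Set.mem_insert_iff, Set.mem_singleton_iff] at hD
      rcases hD with rfl | rfl | rfl
      · exact frontier_open_nd (Qc_open _)
      · exact frontier_open_nd hAo
      · exact frontier_open_nd hBo
    · exact frontier_open_nd (hPo i)
    · exact frontier_open_nd (hgPo i)
    · exact frontier_open_nd (huo i)
    · exact frontier_open_nd (hvo i)
    · exact hyper_nd i _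
  obtain ⟨x0, hx0C, hgen, hfree⟩ := generic (Γ := τ.Γ) hcou h𝒟c h𝒟 hCo hCne
  have hx0 : x0 ∈ Qc (d := d) ℓ := hCQ hx0C
  have hz : Base τ x0 := ⟨hx0, fun γ hγ i => hgen γ hγ _
    (Or.inr (Or.inr (Or.inr (Or.inr (Or.inr ⟨i, rfl⟩))))), hfree⟩
  have gQ : ∀ γ ∈ τ.Γ, γ x0 ∉ frontier (Qc (d := d) ℓ) := fun γ hγ => hgen γ hγ _ (Or.inl (by simp))
  have gA : ∀ γ ∈ τ.Γ, γ x0 ∉ frontier A := fun γ hγ => hgen γ hγ _ (Or.inl (by simp))
  have gB : ∀ γ ∈ τ.Γ, γ x0 ∉ frontier B := fun γ hγ => hgen γ hγ _ (Or.inl (by simp))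
  have gP : ∀ γ ∈ τ.Γ, ∀ i, γ x0 ∉ frontier (P i) := fun γ hγ i => hgen γ hγ _ (Or.inr (Or.inl ⟨i, rfl⟩))
  have ggP : ∀ γ ∈ τ.Γ, ∀ i, γ x0 ∉ frontier (g i '' P i) := fun γ hγ i =>
    hgen γ hγ _ (Or.inr (Or.inr (Or.inl ⟨i, rfl⟩)))
  have gu : ∀ γ ∈ τ.Γ, ∀ i, γ x0 ∉ frontier (u i '' ZA i) := fun γ hγ i =>
    hgen γ hγ _ (Or.inr (Or.inr (Or.inr (Or.inl ⟨i, rfl⟩))))
  have gv : ∀ γ ∈ τ.Γ, ∀ i, γ x0 ∉ frontier (v i '' ZB i) := fun γ hγ i =>
    hgen γ hγ _ (Or.inr (Or.inr (Or.inr (Or.inr (Or.inl ⟨i, rfl⟩)))))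
  -- the classes
  have e1 := Phi_join hPo hPd h1 gP
  have e2 := Phi_join hgPo hgd h2 ggP
  have e3 := Phi_join huo hu rfl gu
  have e4 := Phi_join hvo hv rfl gv
  rw [Finset.sum_congr rfl fun i _ => Phi_move (x0 := x0) (hgΓ i) (P i), ← e1] at e2
  rw [Finset.sum_congr rfl fun i _ => Phi_move (x0 := x0) (huΓ i) (ZA i)] at e3
  rw [Finset.sum_congr rfl fun i _ => Phi_move (x0 := x0) (hvΓ i) (ZB i)] at e4
  have e5 : m • cl τ.Γ (Tg τ.Γ x0 A) + cl τ.Γ (Tg τ.Γ x0 C) =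
      m • cl τ.Γ (Tg τ.Γ x0 B) + cl τ.Γ (Tg τ.Γ x0 C) := by
    have e6 := e3.symm.trans (e2.symm.trans e4)
    rw [hZA, hZB, Fin.sum_univ_succ, Fin.sum_univ_succ] at e6
    simp only [Fin.cons_zero, Fin.cons_succ, Finset.sum_const, Finset.card_univ,
      Fintype.card_fin] at e6
    rw [add_comm, e6, add_comm]
  have hTA : Tg τ.Γ x0 A = ∅ := by
    rw [hA0]
    ext γ
    simp [Tg]
  rw [hTA, cl_empty, smul_zero, zero_add, nsmul_cl] at e5
  obtain ⟨e, S, hS, he⟩ := Quotient.exact e5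
  obtain ⟨ρ, hρ⟩ := synd hz hBo hBne hBQ
  have hsyn : ∀ γ ∈ Tg τ.Γ x0 C, ∃ σ ∈ Wd τ.Sg ρ, σ * γ ∈ Tg τ.Γ x0 B := by
    intro γ hγ
    obtain ⟨δ, hδ, hδZ⟩ := hρ γ ⟨hγ.1, hCQ hγ.2⟩
    obtain ⟨w, hw, rfl⟩ := ballx_wd τ.one x0 ρ γ δ hδ
    exact ⟨w, hw, τ.Γ.mul_mem (wd_mem τ.sub ρ w hw) hγ.1, hδZ⟩
  have hΓH : τ.Γ ≤ H := mkTor_le hℓ H htr (by
    rintro _ (⟨i, rfl⟩ | ⟨i, rfl⟩ | ⟨i, rfl⟩)
    · exact huH i
    · exact hvH i
    · exact hgH i)
  exact blowup hslow (TB := Tg τ.Γ x0 B) (TC := Tg τ.Γ x0 C) ⟨τ.Γ.one_mem, hx0C⟩ hm e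
    (fun σ hσ => hΓH (hS σ hσ)) he (fun σ hσ => hΓH (wd_mem τ.sub ρ σ hσ)) hsyn

end Pool.Agent.Y779.RO
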